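import Pool.Agent.H874.AN.Ring

/-!
# The simplicial complex of the data, and general position
-/

set_option autoImplicit false
set_option linter.unusedSectionVars false
set_option linter.unusedSimpArgs false

namespace Pool.Agent.H874.AN

open Finset Matrix MvPolynomial

universe u

section

variable {V I : Type} [Fintype V] [DecidableEq V] [Fintype I] [DecidableEq I] (C₀ : Combi V I)

/-- the simplicial complex with the facets `fac i` -/
def cplx : Set (Finset V) := {s | ∃ i, s ⊆ univ.image (C₀.fac i)}

variable {C₀}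

lemma mem_cplx (s : Finset V) : s ∈ cplx C₀ ↔ ∃ i, s ⊆ univ.image (C₀.fac i) := Iff.rfl

lemma facet_mem (i : I) : univ.image (C₀.fac i) ∈ cplx C₀ := ⟨i, subset_rfl⟩

lemma card_facet (i : I) : (univ.image (C₀.fac i)).card = 4 := by
  rw [Finset.card_image_of_injective _ (C₀.h_inj i)]; simp

lemma card_ridge (x : I × Fin 4) : (ridge C₀ x).card = 3 := by
  unfold ridge
  rw [Finset.card_image_of_injective]
  · simp
  · intro a b h
    exact Fin.succAbove_right_injective (C₀.h_inj _ h)

lemma ridge_subset (x : I × Fin 4) : ridge C₀ x ⊆ univ.image (C₀.fac x.1) := by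
  intro v hv
  unfold ridge at hv
  rw [mem_image] at hv ⊢
  obtain ⟨c, _, rfl⟩ := hv
  exact ⟨_, mem_univ _, rfl⟩

lemma facet_inj {i j : I} (h : univ.image (C₀.fac i) = univ.image (C₀.fac j)) : i = j := by
  apply C₀.h_dist
  intro a
  have : C₀.fac i a ∈ univ.image (C₀.fac j) := by rw [← h]; exact mem_image_of_mem _ (mem_univ _)
  rw [mem_image] at this
  obtain ⟨b, _, hb⟩ := this
  exact ⟨b, hb⟩

lemma eq_facet {t : Finset V} (ht : t ∈ cplx C₀) (hc : t.card = 4) :
    ∃ i, t = univ.image (C₀.fac i) := by
  obtain ⟨i, hi⟩ := ht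
  exact ⟨i, Finset.eq_of_subset_of_card_le hi (by rw [card_facet, hc])⟩

lemma nbr_ne (x : I × Fin 4) : (C₀.nbr x).1 ≠ x.1 := by
  intro h
  have h3 : (C₀.nbr x).2 = x.2 := by
    by_contra hne
    obtain ⟨c, hc⟩ := Fin.exists_succAbove_eq (Ne.symm hne)
    have h1 := C₀.h_fac x c
    rw [hc, h] at h1
    exact Fin.succAbove_ne _ _ (C₀.h_inj _ h1)
  exact C₀.h_nbr_ne x (Prod.ext h h3)

lemma isPseudomanifold (C₀ : Combi V I) : IsPseudomanifold 4 (cplx C₀) where
  down := by
    rintro s ⟨i, hi⟩ t ht
    exact ⟨i, ht.trans hi⟩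
  vert := by
    intro v
    obtain ⟨i, a, rfl⟩ := C₀.h_cover v
    exact ⟨i, by simp⟩
  pure := by
    rintro s ⟨i, hi⟩
    exact ⟨_, facet_mem i, hi, card_facet i⟩
  ridge := by
    rintro s ⟨i, hi⟩ hs
    -- `s` is a ridge of the facet `i`
    obtain ⟨a, ha⟩ : ∃ a, ridge C₀ (i, a) = s := by
      have hlt : s.card < (univ.image (C₀.fac i)).card := by rw [card_facet]; omega
      obtain ⟨v, hv1, hv2⟩ := Finset.exists_mem_notMem_of_card_lt_card hlt
      rw [mem_image] at hv1
      obtain ⟨a, _, rfl⟩ := hv1
      refine ⟨a, ?_⟩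
      symm
      apply Finset.eq_of_subset_of_card_le
      · intro w hw
        have := hi hw
        rw [mem_image] at this
        obtain ⟨b, _, rfl⟩ := this
        have hba : b ≠ a := by
          rintro rfl
          exact hv2 hw
        obtain ⟨c, rfl⟩ := Fin.exists_succAbove_eq hba
        exact mem_image_of_mem _ (mem_univ _)
      · rw [card_ridge]; omega
    have hset : {t : Finset V | t ∈ cplx C₀ ∧ s ⊆ t ∧ t.card = 4} =
        {univ.image (C₀.fac i), univ.image (C₀.fac (C₀.nbr (i, a)).1)} := by
      ext t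
      rw [Set.mem_insert_iff, Set.mem_singleton_iff]
      constructor
      · rintro ⟨ht, hst, hc⟩
        obtain ⟨l, rfl⟩ := eq_facet ht hc
        have h := C₀.h_two (i, a) l (fun c => by
          have h1 : C₀.fac i (a.succAbove c) ∈ s := by
            rw [← ha]; exact mem_image_of_mem _ (mem_univ _)
          have h2 := hst h1
          rw [mem_image] at h2
          obtain ⟨b, _, hb⟩ := h2
          exact ⟨b, hb⟩)
        rcases h with h | h
        · left; rw [h]
        · right; rw [h]
      · rintro (rfl | rfl)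
        · exact ⟨facet_mem _, hi, card_facet _⟩
        · refine ⟨facet_mem _, ?_, card_facet _⟩
          rw [← ha, ← ridge_nbr (i, a)]
          exact ridge_subset _
    rw [hset, Set.ncard_pair]
    intro h
    exact nbr_ne (i, a) (facet_inj h).symm
  conn := by
    set R : Finset V → Finset V → Prop := fun a b => a ∈ cplx C₀ ∧ b ∈ cplx C₀ ∧ a.card = 4 ∧
      b.card = 4 ∧ (a ∩ b).card + 1 = 4 with hR
    have hsymm : ∀ a b, R a b → R b a := by
      rintro a b ⟨h1, h2, h3, h4, h5⟩
      exact ⟨h2, h1, h4, h3, by rw [Finset.inter_comm]; exact h5⟩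
    have hstep : ∀ x : I × Fin 4, R (univ.image (C₀.fac x.1))
        (univ.image (C₀.fac (C₀.nbr x).1)) := by
      intro x
      refine ⟨facet_mem _, facet_mem _, card_facet _, card_facet _, ?_⟩
      have h1 : ridge C₀ x ⊆ univ.image (C₀.fac x.1) ∩ univ.image (C₀.fac (C₀.nbr x).1) := by
        apply Finset.subset_inter (ridge_subset x)
        rw [← ridge_nbr x]
        exact ridge_subset _
      have h2 := Finset.card_le_card h1
      rw [card_ridge] at h2
      have h3 : (univ.image (C₀.fac x.1) ∩ univ.image (C₀.fac (C₀.nbr x).1)).card ≤ 4 :=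
        (Finset.card_le_card Finset.inter_subset_left).trans (card_facet x.1).le
      have h4 : (univ.image (C₀.fac x.1) ∩ univ.image (C₀.fac (C₀.nbr x).1)).card ≠ 4 := by
        intro h4
        have h5 := Finset.eq_of_subset_of_card_le
          (Finset.inter_subset_left (s₁ := univ.image (C₀.fac x.1))
            (s₂ := univ.image (C₀.fac (C₀.nbr x).1))) (by rw [h4, card_facet])
        have h6 := Finset.eq_of_subset_of_card_le
          (Finset.inter_subset_right (s₁ := univ.image (C₀.fac x.1))
            (s₂ := univ.image (C₀.fac (C₀.nbr x).1))) (by rw [h4, card_facet])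
        rw [h5] at h6
        exact nbr_ne x (facet_inj h6).symm
      omega
    have hroot : ∀ n : ℕ, ∀ i, C₀.rk i ≤ n →
        Relation.ReflTransGen R (univ.image (C₀.fac i)) (univ.image (C₀.fac C₀.root)) := by
      intro n
      induction n using Nat.strong_induction_on with
      | _ n ih =>
        intro i hi
        by_cases hr : i = C₀.root
        · rw [hr]
        · obtain ⟨a, ha1, _⟩ := C₀.h_tree i hr
          exact Relation.ReflTransGen.head (hstep (i, a))
            (ih _ (lt_of_lt_of_le ha1 hi) _ le_rfl)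
    intro s hs t ht hsc htc
    obtain ⟨i, rfl⟩ := eq_facet hs hsc
    obtain ⟨j, rfl⟩ := eq_facet ht htc
    refine (hroot _ i le_rfl).trans ?_
    have h1 := hroot _ j le_rfl
    have hsw : ∀ s t, Relation.ReflTransGen R s t → Relation.ReflTransGen R t s := by
      intro s t h
      induction h with
      | refl => exact Relation.ReflTransGen.refl
      | tail _ hab ih => exact Relation.ReflTransGen.head (hsymm _ _ hab) ih
    exact hsw _ _ h1

end

section

variable {V I : Type} [Fintype V] [DecidableEq V] [Fintype I] [DecidableEq I] {C₀ : Combi V I}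
  {K : Type u} [Field K] {p : V → Fin 4 → K}

/-- the determinants of the facets are not zero for a linear system of parameters -/
lemma det_ne_of_lsop (h : IsLSOP (cplx C₀) p) (i : I) : (PM C₀ p i).det ≠ 0 := by
  intro h0
  obtain ⟨y, hy0, hy⟩ := Matrix.exists_vecMul_eq_zero_iff.mpr h0
  set Y : V → K := fun v => ∑ a, if C₀.fac i a = v then y a else 0 with hY
  have hYf : ∀ a, Y (C₀.fac i a) = y a := by
    intro a
    rw [hY]
    simp only
    rw [Finset.sum_eq_single a]
    · simp
    · intro b _ hb
      rw [if_neg]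
      intro h
      exact hb (C₀.h_inj i h)
    · simp
  have hYo : ∀ v, (∀ a, C₀.fac i a ≠ v) → Y v = 0 := by
    intro v hv
    rw [hY]
    exact Finset.sum_eq_zero fun a _ => if_neg (hv a)
  set α : MvPolynomial V K →ₐ[K] Polynomial K :=
    MvPolynomial.aeval (fun v => Polynomial.C (Y v) * Polynomial.X) with hα
  have hkill : ∀ f ∈ redIdeal (cplx C₀) p, α f = 0 := by
    have hle : redIdeal (cplx C₀) p ≤ RingHom.ker α.toRingHom := by
      unfold redIdeal faceIdeal
      rw [sup_le_iff, Ideal.span_le, Ideal.span_le]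
      constructor
      · rintro m ⟨F, hF, rfl⟩
        rw [SetLike.mem_coe, RingHom.mem_ker]
        change α (∏ v ∈ F, X v) = 0
        rw [map_prod]
        obtain ⟨v, hv1, hv2⟩ : ∃ v ∈ F, ∀ a, C₀.fac i a ≠ v := by
          by_contra hcon
          push Not at hcon
          apply hF
          refine ⟨i, fun v hv => ?_⟩
          obtain ⟨a, ha⟩ := hcon v hv
          rw [← ha]
          exact mem_image_of_mem _ (mem_univ _)
        apply Finset.prod_eq_zero hv1
        rw [hα, MvPolynomial.aeval_X, hYo v hv2, Polynomial.C_0, zero_mul]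
      · rintro m ⟨j, rfl⟩
        rw [SetLike.mem_coe, RingHom.mem_ker]
        change α (theta p j) = 0
        unfold theta
        rw [map_sum]
        have h1 : ∀ v, α (MvPolynomial.C (p v j) * X v) =
            Polynomial.C (p v j * Y v) * Polynomial.X := by
          intro v
          rw [map_mul, hα, MvPolynomial.aeval_X, MvPolynomial.aeval_C]
          rw [Polynomial.C_mul, mul_assoc]
          rfl
        simp_rw [h1]
        rw [← Finset.sum_mul, ← map_sum]
        have h2 : ∑ v, p v j * Y v = 0 := by
          rw [hY]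
          simp_rw [Finset.mul_sum]
          rw [Finset.sum_comm]
          have h3 := congrFun hy j
          simp only [Matrix.vecMul, dotProduct, Pi.zero_apply, PM, Matrix.of_apply] at h3
          refine Eq.trans ?_ h3
          refine Finset.sum_congr rfl fun a _ => ?_
          rw [Finset.sum_eq_single (C₀.fac i a)]
          · rw [if_pos rfl, mul_comm]
          · intro b _ hb
            rw [if_neg (fun h => hb h.symm), mul_zero]
          · simp
        rw [h2, Polynomial.C_0, zero_mul]
    intro f hf
    exact hle hf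
  set β : Red (cplx C₀) p →ₐ[K] Polynomial K := Ideal.Quotient.liftₐ _ α hkill with hβ
  have hsurj : Function.Surjective β := by
    obtain ⟨a, ha⟩ : ∃ a, y a ≠ 0 := by
      by_contra hcon
      push Not at hcon
      exact hy0 (funext hcon)
    have hX : β (Ideal.Quotient.mk _ (MvPolynomial.C (y a)⁻¹ * X (C₀.fac i a))) =
        Polynomial.X := by
      rw [hβ]
      change α (MvPolynomial.C (y a)⁻¹ * X (C₀.fac i a)) = _
      rw [map_mul, hα, MvPolynomial.aeval_X, MvPolynomial.aeval_C, hYf, ← mul_assoc]
      change Polynomial.C (y a)⁻¹ * Polynomial.C (y a) * Polynomial.X = _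
      rw [← Polynomial.C_mul, inv_mul_cancel₀ ha, Polynomial.C_1, one_mul]
    intro q
    refine ⟨Polynomial.aeval (Ideal.Quotient.mk _
      (MvPolynomial.C (y a)⁻¹ * X (C₀.fac i a))) q, ?_⟩
    rw [← Polynomial.aeval_algHom_apply, hX, Polynomial.aeval_X_left_apply]
  have : Module.Finite K (Red (cplx C₀) p) := h
  exact Polynomial.not_finite (R := K) (Module.Finite.of_surjective β.toLinearMap hsurj)

/-- a generic point exists over an infinite field -/
lemma exists_good [Infinite K] (h : ∀ i, (PM C₀ p i).det ≠ 0) : ∃ z, Good C₀ p z := by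
  let f : I × Fin 4 → Module.Dual K (Fin 4 → K) := fun x =>
    (LinearMap.proj x.2) ∘ₗ (Matrix.vecMulLinear (PM C₀ p x.1)⁻¹)
  obtain ⟨z, hz⟩ := Module.Dual.exists_forall_ne_zero_of_forall_exists f (by
    rintro ⟨i, a⟩
    refine ⟨(PM C₀ p i) a, ?_⟩
    change ((PM C₀ p i) a ᵥ* (PM C₀ p i)⁻¹) a ≠ 0
    have h1 : (PM C₀ p i) a ᵥ* (PM C₀ p i)⁻¹ = (PM C₀ p i * (PM C₀ p i)⁻¹) a := rfl
    rw [h1, Matrix.mul_nonsing_inv _ (Ne.isUnit (h i))]
    simp)
  exact ⟨z, h, fun i a => hz (i, a)⟩

end

end Pool.Agent.H874.AN
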