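import Mathlib

/-!
# Combinatorial data: a triangulation of real projective 3-space and its double cover

`Combi V I` collects the combinatorial facts on a triangulated closed oriented 3-manifold with a
non-trivial double cover whose total space is shellable that are used in the proof.
`rp3 : Combi (Fin 11) (Fin 40)` is the triangulation of `RP^3` with 11 vertices and 40 facets.
-/

set_option autoImplicit false

namespace Pool.Agent.H874.AN

/-- Combinatorial data of a triangulated closed oriented 3-manifold with a double cover. -/
structure Combi (V I : Type) where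
  /-- the facets, as ordered 4-tuples of vertices -/
  fac : I → Fin 4 → V
  /-- orientation of the facets, `true` for minus -/
  sg : I → Bool
  /-- the vertex `a` of the positive lift of the facet `i` is the lift `eta i a` of `fac i a` -/
  eta : I → Fin 4 → Bool
  /-- the cocycle of the double cover -/
  al : V → V → Bool
  /-- crossing the ridge opposite to a vertex -/
  nbr : I × Fin 4 → I × Fin 4
  /-- monodromy of a crossing -/
  del : I × Fin 4 → Bool
  rk : I → ℕ
  root : I
  N : ℕ
  pos : I → Bool → ℕ
  h_inj : ∀ i, Function.Injective (fac i)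
  h_nbr : ∀ x, nbr (nbr x) = x
  h_nbr_ne : ∀ x, nbr x ≠ x
  h_fac : ∀ (x : I × Fin 4) (c : Fin 3),
    fac x.1 (x.2.succAbove c) = fac (nbr x).1 ((nbr x).2.succAbove c)
  h_sg : ∀ x : I × Fin 4, xor (xor (sg x.1) (x.2.val.testBit 0))
    (xor (sg (nbr x).1) ((nbr x).2.val.testBit 0)) = true
  h_al : ∀ i a b, xor (eta i a) (eta i b) = al (fac i a) (fac i b)
  h_del : ∀ (x : I × Fin 4) (c : Fin 3),
    eta (nbr x).1 ((nbr x).2.succAbove c) = xor (del x) (eta x.1 (x.2.succAbove c))
  h_tree : ∀ i, i ≠ root → ∃ a, rk (nbr (i, a)).1 < rk i ∧ del (nbr (i, a)) = false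
  h_odd : ∃ x, del x = true
  h_cover : ∀ v, ∃ i a, fac i a = v
  h_dist : ∀ i j, (∀ a, ∃ b, fac j b = fac i a) → i = j
  h_two : ∀ (x : I × Fin 4) (l : I), (∀ c, ∃ b, fac l b = fac x.1 (x.2.succAbove c)) →
    l = x.1 ∨ l = (nbr x).1
  h_pos : ∀ i s, pos i s < N
  h_step : ∀ m, m < N → ∃ i s, (∀ j t, pos j t = m → j = i ∧ t = s) ∧
    ((∃ a, ∀ j t, pos j t < m → ∀ b, fac j b = fac i a → xor t (eta j b) ≠ xor s (eta i a)) ∨
     (∃ c d, c ≠ d ∧ ∀ j, j ≠ i → ∀ c' d', fac j c' = fac i c → fac j d' = fac i d →
        pos j (xor (xor s (eta i c)) (eta j c')) < m))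

namespace RP3

def tFac : ℕ := 2945340486754707845507217952686197126576383720508330229739759201534312594035540864534476721653599807304844907259926363388008023598498785607270545233126667640254388562988764781076108481438769680
def tSg : ℕ := 368479744468
def tEta : ℕ := 152156602273286409915852393050209560456782151808
def tAl : ℕ := 11698480495785379903004751477458806265116546826240
def tNbi : ℕ := 5559121238073719400769901814427101721221939394459017426467857489153285386178154702623874255477145024221423296371967318985239984973086949315705888330517954710376788894379491679923577065316826865012498655586408799164640185022220988981821956159032600626395190615395818615148681955700802334849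
def tNbb : ℕ := 1609647367858705026822731008597546757046369183452564225295027150723831483974602741582055879288319
def tPar : ℕ := 94841202806130976593916
def tOrdi : ℕ := 1683118112978773834205266533839983013034226672077347889495942825381152380798299940220692280289037732085260826449379378811434356817022338586162780
def tOrds : ℕ := 9142515570226567864898
def tCod : ℕ := 1416151474576746916209403111257017014759399294858586609511424376936183474388708368875510706547929704462695103077683365888
def tPos : ℕ := 960601609470675205426827174963756969720173264907021246326452948967935445145393974643863779837026283143893646823984799344265970664302527433626881494530920241249204229644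

/-- the `j`-th digit of `T` in base `2 ^ w` -/
def dig (T w j : ℕ) : ℕ := (T >>> (w * j)) % 2 ^ w

def fac (i : Fin 40) (a : Fin 4) : Fin 11 := Fin.ofNat 11 (dig tFac 4 (4 * i.val + a.val))
def sg (i : Fin 40) : Bool := Nat.beq (dig tSg 1 i.val) 1
def eta (i : Fin 40) (a : Fin 4) : Bool := Nat.beq (dig tEta 1 (4 * i.val + a.val)) 1
def al (v w : Fin 11) : Bool := Nat.beq (dig tAl 1 (16 * v.val + w.val)) 1
def nbr (x : Fin 40 × Fin 4) : Fin 40 × Fin 4 :=
  (Fin.ofNat 40 (dig tNbi 6 (4 * x.1.val + x.2.val)),
    Fin.ofNat 4 (dig tNbb 2 (4 * x.1.val + x.2.val)))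
def del (x : Fin 40 × Fin 4) : Bool :=
  xor (eta (nbr x).1 ((nbr x).2.succAbove 0)) (eta x.1 (x.2.succAbove 0))
def pos (i : Fin 40) (s : Bool) : ℕ := dig tPos 7 (2 * i.val + s.toNat)
def ordi (m : ℕ) : Fin 40 := Fin.ofNat 40 (dig tOrdi 6 m)
def ords (m : ℕ) : Bool := Nat.beq (dig tOrds 1 m) 1
def cod (m : ℕ) : ℕ := dig tCod 5 m

end RP3

end Pool.Agent.H874.AN
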