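import Mathlib

/-!
# Definitions: pseudomanifolds, cycles, Artinian reductions of face rings, total anisotropy
-/

set_option autoImplicit false

namespace Pool.Agent.H874.AN

open MvPolynomial

universe u

section combinatorics

variable {V : Type} [Fintype V] [DecidableEq V]

/-- `Δ` is the set of faces of a simplicial complex with vertex set `V`. -/
structure IsComplex (Δ : Set (Finset V)) : Prop where
  down : ∀ s ∈ Δ, ∀ t : Finset V, t ⊆ s → t ∈ Δ
  vert : ∀ v : V, {v} ∈ Δ

/-- `Δ` is a `(d-1)`-dimensional pseudomanifold: every face lies in a facet with `d` vertices,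
every face with `d - 1` vertices lies in exactly two facets, and any two facets are connected
through faces with `d - 1` vertices. -/
structure IsPseudomanifold (d : ℕ) (Δ : Set (Finset V)) : Prop extends IsComplex Δ where
  pure : ∀ s ∈ Δ, ∃ t ∈ Δ, s ⊆ t ∧ t.card = d
  ridge : ∀ s ∈ Δ, s.card + 1 = d → {t : Finset V | t ∈ Δ ∧ s ⊆ t ∧ t.card = d}.ncard = 2
  conn : ∀ s ∈ Δ, ∀ t ∈ Δ, s.card = d → t.card = d →
    Relation.ReflTransGen (fun a b : Finset V => a ∈ Δ ∧ b ∈ Δ ∧ a.card = d ∧ b.card = d ∧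
      (a ∩ b).card + 1 = d) s t

/-- Simplicial `(d-1)`-cycles of `Δ` with coefficients in `k`, as alternating functions of the
`d`-tuples of vertices: `μ` is alternating, vanishes on the tuples which are not the vertices of
a face with `d` vertices, and has boundary zero. (If `Δ` has dimension `d - 1` these are the
elements of `H_{d-1}(Δ; k)`.) -/
structure IsCycle {k : Type u} [Field k] (d : ℕ) (Δ : Set (Finset V)) (μ : (Fin d → V) → k) :
    Prop where
  alt : ∀ (s : Equiv.Perm (Fin d)) (v : Fin d → V),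
    μ (v ∘ s) = (((Equiv.Perm.sign s : ℤˣ) : ℤ) : k) * μ v
  supp : ∀ v : Fin d → V, μ v ≠ 0 → Function.Injective v ∧ Finset.univ.image v ∈ Δ
  bdry : ∀ (w : Fin d → V) (i : Fin d), ∑ x, μ (Function.update w i x) = 0

end combinatorics

section rings

variable {V : Type} [Fintype V] [DecidableEq V] {k : Type u} [Field k]

variable (k) in
/-- The Stanley-Reisner ideal of `Δ`. -/
noncomputable def faceIdeal (Δ : Set (Finset V)) : Ideal (MvPolynomial V k) :=
  Ideal.span {m | ∃ F : Finset V, F ∉ Δ ∧ m = ∏ v ∈ F, X v}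

/-- The linear forms `θ_j = ∑_v (p_v)_j x_v`. -/
noncomputable def theta {d : ℕ} (p : V → Fin d → k) (j : Fin d) : MvPolynomial V k :=
  ∑ v, C (p v j) * X v

/-- The ideal `I_Δ + (θ_1, …, θ_d)`. -/
noncomputable def redIdeal {d : ℕ} (Δ : Set (Finset V)) (p : V → Fin d → k) :
    Ideal (MvPolynomial V k) :=
  faceIdeal k Δ ⊔ Ideal.span (Set.range (theta p))

/-- The quotient `A^*(Δ) = k[Δ] / (θ_1, …, θ_d)`. -/
abbrev Red {d : ℕ} (Δ : Set (Finset V)) (p : V → Fin d → k) : Type u :=
  MvPolynomial V k ⧸ redIdeal Δ p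

/-- `θ_1, …, θ_d` is a linear system of parameters (`d - 1` being the dimension of `Δ`): the
quotient has finite dimension over `k`. -/
def IsLSOP {d : ℕ} (Δ : Set (Finset V)) (p : V → Fin d → k) : Prop :=
  Module.Finite k (Red Δ p)

/-- The graded piece `A^i(Δ)`. -/
noncomputable def gr {d : ℕ} (Δ : Set (Finset V)) (p : V → Fin d → k) (i : ℕ) :
    Submodule k (Red Δ p) :=
  (homogeneousSubmodule V k i).map (Ideal.Quotient.mkₐ k (redIdeal Δ p)).toLinearMap

/-- `φ` is the evaluation at the cycle `μ`: under the canonical isomorphism of `A^d` with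
`H^{d-1}` the monomial `x_{v_1} ⋯ x_{v_d}` of a facet corresponds to the class of the oriented
facet `[v_1, …, v_d]` divided by `det (p_{v_1}, …, p_{v_d})`. These monomials span `A^d`, so that
`φ` is determined on `A^d`. -/
def IsDegreeMap {d : ℕ} {Δ : Set (Finset V)} (μ : (Fin d → V) → k) (p : V → Fin d → k)
    (φ : Red Δ p →ₗ[k] k) : Prop :=
  ∀ v : Fin d → V, Matrix.det (Matrix.of fun i j => p (v i) j) *
    φ (Ideal.Quotient.mk _ (∏ i, X (v i))) = μ v

/-- `L^i`: the elements of `A^i` which pair to zero with all of `A^{d-i}`; so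
`B^i = A^i / L^i`. -/
def radical {d : ℕ} {Δ : Set (Finset V)} {p : V → Fin d → k}
    (φ : Red Δ p →ₗ[k] k) (i : ℕ) : Set (Red Δ p) :=
  {a | a ∈ gr Δ p i ∧ ∀ b ∈ gr Δ p (d - i), φ (a * b) = 0}

/-- The Artinian reduction is totally anisotropic: `u ^ 2 ≠ 0` in `B^{2 i}` for every `i ≤ d / 2`
and every `u ≠ 0` in `B^i`. -/
def TotallyAnisotropic {d : ℕ} {Δ : Set (Finset V)} {p : V → Fin d → k}
    (φ : Red Δ p →ₗ[k] k) : Prop :=
  ∀ i, 2 * i ≤ d → ∀ u ∈ gr Δ p i, u ∉ radical φ i → u ^ 2 ∉ radical φ (2 * i)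

end rings

end Pool.Agent.H874.AN
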