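import Pool.Agent.H874.AN.Final

/-!
# The fundamental cycle and the degree map
-/

set_option autoImplicit false
set_option linter.unusedSectionVars false
set_option linter.unusedSimpArgs false

namespace Pool.Agent.H874.AN

open Finset Matrix MvPolynomial

universe u

section

variable {V I : Type} [Fintype V] [DecidableEq V] [Fintype I] [DecidableEq I] {C₀ : Combi V I}
  {K : Type u} [Field K] {p : V → Fin 4 → K} {z : Fin 4 → K}

/-- the matrix of a 4-tuple of vertices -/
def TM (p : V → Fin 4 → K) (v : Fin 4 → V) : Matrix (Fin 4) (Fin 4) K :=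
  Matrix.of fun i j => p (v i) j

lemma TM_fac (i : I) : TM p (C₀.fac i) = PM C₀ p i := rfl

/-- the cycle of the localised functional -/
noncomputable def mu (C₀ : Combi V I) (p : V → Fin 4 → K) (z : Fin 4 → K) (v : Fin 4 → V) : K :=
  (TM p v).det * ph C₀ p z (mon v)

lemma TM_perm (v : Fin 4 → V) (s : Equiv.Perm (Fin 4)) :
    (TM p (v ∘ s)).det = (((Equiv.Perm.sign s : ℤˣ) : ℤ) : K) * (TM p v).det := by
  rw [← Matrix.det_permute s (TM p v)]
  rfl

lemma TM_not_inj (v : Fin 4 → V) (h : ¬ Function.Injective v) : (TM p v).det = 0 := by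
  rw [Function.Injective] at h
  push Not at h
  obtain ⟨a, b, hab, hne⟩ := h
  refine Matrix.det_zero_of_row_eq hne ?_
  ext j
  simp [TM, hab]

/-- expansion of the determinant along a row -/
lemma TM_update (w : Fin 4 → V) (i : Fin 4) : ∃ M : Fin 4 → K, ∀ x,
    (TM p (Function.update w i x)).det = p x ⬝ᵥ M := by
  refine ⟨fun j => (-1) ^ ((i : ℕ) + (j : ℕ)) *
    ((TM p w).submatrix i.succAbove j.succAbove).det, fun x => ?_⟩
  rw [Matrix.det_succ_row _ i]
  simp only [dotProduct]
  refine Finset.sum_congr rfl fun j _ => ?_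
  have h1 : (TM p (Function.update w i x)) i j = p x j := by simp [TM]
  have h2 : (TM p (Function.update w i x)).submatrix i.succAbove j.succAbove =
      (TM p w).submatrix i.succAbove j.succAbove := by
    ext a b
    simp only [TM, Matrix.submatrix_apply, Matrix.of_apply]
    rw [Function.update_of_ne (Fin.succAbove_ne _ _)]
  rw [h1, h2]
  ring

lemma mu_cycle (hg : Good C₀ p z) : IsCycle 4 (cplx C₀) (mu C₀ p z) where
  alt := by
    intro s v
    unfold mu
    rw [TM_perm, mon_perm]
    ring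
  supp := by
    intro v hv
    unfold mu at hv
    constructor
    · by_contra h
      rw [TM_not_inj v h, zero_mul] at hv
      exact hv rfl
    · by_contra h
      apply hv
      rw [ph_mon_out, mul_zero]
      rintro ⟨i, hi⟩
      apply h
      refine ⟨i, ?_⟩
      intro x hx
      rw [mem_image] at hx
      obtain ⟨j, _, rfl⟩ := hx
      obtain ⟨b, hb⟩ := hi j
      rw [← hb]
      exact mem_image_of_mem _ (mem_univ _)
  bdry := by
    intro w i
    obtain ⟨M, hM⟩ := TM_update (p := p) w i
    unfold mu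
    have h := (kills_ph hg).rel (fun c => w (i.succAbove c)) M
    rw [← h]
    refine Finset.sum_congr rfl fun x _ => ?_
    rw [hM, mon_update]

lemma mu_fac (hg : Good C₀ p z) (i : I) : mu C₀ p z (C₀.fac i) = sgn (C₀.sg i) := by
  unfold mu
  rw [ph_mon_fac i hg, TM_fac]
  have := hg.hdet i
  field_simp

/-- the boundary relation across a ridge -/
lemma cycle_ridge {μ : (Fin 4 → V) → K} (hμ : IsCycle 4 (cplx C₀) μ) (x : I × Fin 4) :
    μ (C₀.fac x.1) +
      μ (Function.update (C₀.fac x.1) x.2 (C₀.fac (C₀.nbr x).1 (C₀.nbr x).2)) = 0 := by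
  have h1 := hμ.bdry (C₀.fac x.1) x.2
  have hne : C₀.fac x.1 x.2 ≠ C₀.fac (C₀.nbr x).1 (C₀.nbr x).2 := by
    intro h
    have h2 : x.1 = (C₀.nbr x).1 := by
      apply C₀.h_dist
      intro a
      by_cases ha : a = x.2
      · exact ⟨(C₀.nbr x).2, by rw [ha, h]⟩
      · obtain ⟨c, rfl⟩ := Fin.exists_succAbove_eq ha
        exact ⟨_, (C₀.h_fac x c).symm⟩
    exact nbr_ne x h2.symm
  have hsub : ∑ v, μ (Function.update (C₀.fac x.1) x.2 v) =
      ∑ v ∈ {C₀.fac x.1 x.2, C₀.fac (C₀.nbr x).1 (C₀.nbr x).2},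
        μ (Function.update (C₀.fac x.1) x.2 v) := by
    symm
    apply Finset.sum_subset (Finset.subset_univ _)
    intro v _ hv
    rw [mem_insert, mem_singleton, not_or] at hv
    by_contra hne0
    obtain ⟨hinj, l, hl⟩ := hμ.supp _ hne0
    have hr : ∀ c, C₀.fac x.1 (x.2.succAbove c) ≠ v := by
      intro c hc
      have h3 : Function.update (C₀.fac x.1) x.2 v (x.2.succAbove c) =
          Function.update (C₀.fac x.1) x.2 v x.2 := by
        rw [Function.update_of_ne (Fin.succAbove_ne _ _), Function.update_self, hc]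
      exact Fin.succAbove_ne _ _ (hinj h3)
    have hl' : ∀ j, ∃ b, C₀.fac l b = Function.update (C₀.fac x.1) x.2 v j := by
      intro j
      have := hl (mem_image_of_mem _ (mem_univ j))
      rw [mem_image] at this
      obtain ⟨b, _, hb⟩ := this
      exact ⟨b, hb⟩
    have hl2 := C₀.h_two x l (fun c => by
      obtain ⟨b, hb⟩ := hl' (x.2.succAbove c)
      rw [Function.update_of_ne (Fin.succAbove_ne _ _)] at hb
      exact ⟨b, hb⟩)
    obtain ⟨b, hb⟩ := hl' x.2
    rw [Function.update_self] at hb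
    rcases hl2 with h | h
    · by_cases hbx : b = x.2
      · rw [h, hbx] at hb
        exact hv.1 hb.symm
      · obtain ⟨c, rfl⟩ := Fin.exists_succAbove_eq hbx
        rw [h] at hb
        exact hr c hb
    · by_cases hbx : b = (C₀.nbr x).2
      · rw [h, hbx] at hb
        exact hv.2 hb.symm
      · obtain ⟨c, rfl⟩ := Fin.exists_succAbove_eq hbx
        rw [h, ← C₀.h_fac] at hb
        exact hr c hb
  rw [hsub, Finset.sum_pair hne, Function.update_eq_self] at h1
  exact h1

/-- a tuple with the vertices of a facet is a permutation of the facet -/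
lemma exists_perm (v : Fin 4 → V) (hv : Function.Injective v) (i : I)
    (h : univ.image v ⊆ univ.image (C₀.fac i)) : ∃ s : Equiv.Perm (Fin 4), v = C₀.fac i ∘ s := by
  have h1 : ∀ j, ∃ b, C₀.fac i b = v j := by
    intro j
    have := h (mem_image_of_mem _ (mem_univ j))
    rw [mem_image] at this
    obtain ⟨b, _, hb⟩ := this
    exact ⟨b, hb⟩
  choose τ hτ using h1
  have hinj : Function.Injective τ := fun a b hab => hv (by rw [← hτ a, ← hτ b, hab])
  refine ⟨Equiv.ofBijective τ (Finite.injective_iff_bijective.mp hinj), ?_⟩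
  ext j
  exact (hτ j).symm

lemma update_perm (x : I × Fin 4) : ∃ s : Equiv.Perm (Fin 4),
    Function.update (C₀.fac x.1) x.2 (C₀.fac (C₀.nbr x).1 (C₀.nbr x).2) =
      C₀.fac (C₀.nbr x).1 ∘ s := by
  have h1 : ∀ j, ∃ b, C₀.fac (C₀.nbr x).1 b =
      Function.update (C₀.fac x.1) x.2 (C₀.fac (C₀.nbr x).1 (C₀.nbr x).2) j := by
    intro j
    by_cases hj : j = x.2
    · exact ⟨(C₀.nbr x).2, by rw [hj, Function.update_self]⟩
    · obtain ⟨c, rfl⟩ := Fin.exists_succAbove_eq hj
      exact ⟨_, by rw [Function.update_of_ne (Fin.succAbove_ne _ _)]; exact (C₀.h_fac x c).symm⟩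
  apply exists_perm
  · intro a b hab
    by_cases ha : a = x.2
    · by_cases hb : b = x.2
      · rw [ha, hb]
      · exfalso
        obtain ⟨c, rfl⟩ := Fin.exists_succAbove_eq hb
        rw [ha, Function.update_self, Function.update_of_ne (Fin.succAbove_ne _ _),
          C₀.h_fac] at hab
        exact Fin.succAbove_ne _ _ (C₀.h_inj _ hab).symm
    · by_cases hb : b = x.2
      · exfalso
        obtain ⟨c, rfl⟩ := Fin.exists_succAbove_eq ha
        rw [hb, Function.update_self, Function.update_of_ne (Fin.succAbove_ne _ _),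
          C₀.h_fac] at hab
        exact Fin.succAbove_ne _ _ (C₀.h_inj _ hab)
      · rw [Function.update_of_ne ha, Function.update_of_ne hb] at hab
        exact C₀.h_inj _ hab
  · intro v hv
    rw [mem_image] at hv
    obtain ⟨j, _, rfl⟩ := hv
    obtain ⟨b, hb⟩ := h1 j
    rw [← hb]
    exact mem_image_of_mem _ (mem_univ _)

/-- every cycle is a multiple of the fundamental one -/
lemma cycle_eq (hg : Good C₀ p z) {μ : (Fin 4 → V) → K} (hμ : IsCycle 4 (cplx C₀) μ) :
    ∃ r : K, ∀ v, μ v = r * mu C₀ p z v := by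
  set q : I → K := fun i => μ (C₀.fac i) / mu C₀ p z (C₀.fac i) with hq
  have hmu0 : ∀ i, mu C₀ p z (C₀.fac i) ≠ 0 := fun i => by rw [mu_fac hg]; exact sgn_ne _
  have hstep : ∀ x : I × Fin 4, q x.1 = q (C₀.nbr x).1 := by
    intro x
    have h1 := cycle_ridge hμ x
    have h2 := cycle_ridge (mu_cycle hg) x
    obtain ⟨s, hs⟩ := update_perm (C₀ := C₀) x
    rw [hs, hμ.alt] at h1
    rw [hs, (mu_cycle hg).alt] at h2
    rw [hq]
    simp only
    rw [div_eq_div_iff (hmu0 _) (hmu0 _), eq_neg_of_add_eq_zero_left h1,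
      eq_neg_of_add_eq_zero_left h2]
    ring
  have hall : ∀ n : ℕ, ∀ i, C₀.rk i ≤ n → q i = q C₀.root := by
    intro n
    induction n using Nat.strong_induction_on with
    | _ n ih =>
      intro i hi
      by_cases hroot : i = C₀.root
      · rw [hroot]
      · obtain ⟨a, ha1, _⟩ := C₀.h_tree i hroot
        rw [show i = (i, a).1 from rfl, hstep]
        exact ih _ (lt_of_lt_of_le ha1 hi) _ le_rfl
  refine ⟨q C₀.root, fun v => ?_⟩
  by_cases hv : Function.Injective v ∧ univ.image v ∈ cplx C₀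
  · obtain ⟨hinj, i, hi⟩ := hv
    obtain ⟨s, rfl⟩ := exists_perm v hinj i hi
    rw [hμ.alt, (mu_cycle hg).alt, ← hall _ i le_rfl, hq]
    simp only
    have := hmu0 i
    field_simp
  · have h1 : μ v = 0 := by
      by_contra h; exact hv (hμ.supp v h)
    have h2 : mu C₀ p z v = 0 := by
      by_contra h; exact hv ((mu_cycle hg).supp v h)
    rw [h1, h2, mul_zero]

lemma monomial_cubic (m : V →₀ ℕ) (hm : m.degree = 3) (c : K) :
    ∃ a b d : V, (MvPolynomial.monomial m c : MvPolynomial V K) = c • (X a * X b * X d) := by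
  have h1 : (Finsupp.toMultiset m).card = 3 := by
    rw [Finsupp.card_toMultiset, ← hm]
    rfl
  obtain ⟨a, b, d, h⟩ := Multiset.card_eq_three.mp h1
  refine ⟨a, b, d, ?_⟩
  have h2 : m = Finsupp.single a 1 + Finsupp.single b 1 + Finsupp.single d 1 := by
    have h3 := congrArg Multiset.toFinsupp h
    rw [Finsupp.toMultiset_toFinsupp] at h3
    rw [h3]
    have : ({a, b, d} : Multiset V) = {a} + {b} + {d} := rfl
    rw [this, map_add, map_add, Multiset.toFinsupp_singleton, Multiset.toFinsupp_singleton,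
      Multiset.toFinsupp_singleton]
  rw [h2]
  have h4 : (X a * X b * X d : MvPolynomial V K) = MvPolynomial.monomial
      (Finsupp.single a 1 + Finsupp.single b 1 + Finsupp.single d 1) 1 := by
    unfold MvPolynomial.X
    rw [MvPolynomial.monomial_mul, MvPolynomial.monomial_mul, one_mul, one_mul]
  rw [h4, MvPolynomial.smul_monomial, smul_eq_mul, mul_one]

/-- the localised functional on the component of degree four -/
noncomputable def ph4 (C₀ : Combi V I) (p : V → Fin 4 → K) (z : Fin 4 → K) :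
    MvPolynomial V K →ₗ[K] K := ph C₀ p z ∘ₗ homogeneousComponent 4

lemma th_single (j : Fin 4) : th p (Pi.single j (1 : K)) = theta p j := by
  rw [th_eq, Finset.sum_eq_single j]
  · simp
  · intro b _ hb
    rw [Pi.single_eq_of_ne hb, map_zero, zero_mul]
  · simp

lemma ph4_kill_gen (hg : Good C₀ p z) (s : MvPolynomial V K)
    (hs : (∃ F : Finset V, F ∉ cplx C₀ ∧ s = ∏ v ∈ F, X v) ∨ s ∈ Set.range (theta p))
    (g : MvPolynomial V K) : ph4 C₀ p z (g * s) = 0 := by
  rw [g.as_sum, Finset.sum_mul, map_sum]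
  refine Finset.sum_eq_zero fun m _ => ?_
  generalize coeff m g = c
  unfold ph4
  rw [LinearMap.comp_apply]
  rcases hs with ⟨F, hF, rfl⟩ | ⟨j, rfl⟩
  · have hhom : (MvPolynomial.monomial m c * ∏ v ∈ F, X v : MvPolynomial V K).IsHomogeneous
        (m.degree + F.card) := by
      refine (isHomogeneous_monomial c rfl).mul ?_
      have := IsHomogeneous.prod F (fun v => (X v : MvPolynomial V K)) (fun _ => 1)
        (fun v _ => isHomogeneous_X K v)
      simpa using this
    rw [homogeneousComponent_of_mem hhom]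
    split_ifs
    · rw [ph_apply]
      refine Finset.sum_eq_zero fun i _ => ?_
      obtain ⟨v, hv1, hv2⟩ : ∃ v ∈ F, ∀ a, C₀.fac i a ≠ v := by
        by_contra hcon
        push Not at hcon
        apply hF
        refine ⟨i, fun v hv => ?_⟩
        obtain ⟨a, ha⟩ := hcon v hv
        rw [← ha]
        exact mem_image_of_mem _ (mem_univ _)
      rw [map_mul, map_prod, Finset.prod_eq_zero hv1, mul_zero, mul_zero]
      rw [eval_X]
      exact XX_out i v hv2
    · rw [map_zero]
  · have hhom : (MvPolynomial.monomial m c * theta p j : MvPolynomial V K).IsHomogeneous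
        (m.degree + 1) := by
      refine (isHomogeneous_monomial c rfl).mul ?_
      unfold theta
      refine IsHomogeneous.sum _ _ _ fun v _ => ?_
      have := (isHomogeneous_C V (p v j)).mul (isHomogeneous_X K v)
      simpa using this
    rw [homogeneousComponent_of_mem hhom]
    split_ifs with h
    · obtain ⟨a, b, d, hm⟩ := monomial_cubic m (by omega) c
      rw [hm, smul_mul_assoc, map_smul, ← th_single, ph_th hg, smul_zero]
    · rw [map_zero]

lemma ph4_kill (hg : Good C₀ p z) (f : MvPolynomial V K) (hf : f ∈ redIdeal (cplx C₀) p) :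
    ph4 C₀ p z f = 0 := by
  let J : Ideal (MvPolynomial V K) :=
    { carrier := {f | ∀ g, ph4 C₀ p z (g * f) = 0}
      zero_mem' := fun g => by rw [mul_zero, map_zero]
      add_mem' := fun {a b} ha hb g => by rw [mul_add, map_add, ha g, hb g, add_zero]
      smul_mem' := fun c x hx g => by
        rw [smul_eq_mul, ← mul_assoc]
        exact hx (g * c) }
  have hle : redIdeal (cplx C₀) p ≤ J := by
    unfold redIdeal faceIdeal
    rw [sup_le_iff, Ideal.span_le, Ideal.span_le]
    exact ⟨fun s hs g => ph4_kill_gen hg s (Or.inl hs) g,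
      fun s hs g => ph4_kill_gen hg s (Or.inr hs) g⟩
  have := hle hf 1
  rwa [one_mul] at this

/-- the degree map of a cycle exists -/
theorem exists_degreeMap (hg : Good C₀ p z) {μ : (Fin 4 → V) → K}
    (hμ : IsCycle 4 (cplx C₀) μ) : ∃ φ : Red (cplx C₀) p →ₗ[K] K, IsDegreeMap μ p φ := by
  obtain ⟨r, hr⟩ := cycle_eq hg hμ
  let I₀ : Submodule K (MvPolynomial V K) := (redIdeal (cplx C₀) p).restrictScalars K
  let φ₀ : (MvPolynomial V K ⧸ I₀) →ₗ[K] K := I₀.liftQ (ph4 C₀ p z) (by
    intro f hf
    exact ph4_kill hg f hf)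
  let φ : Red (cplx C₀) p →ₗ[K] K :=
    φ₀ ∘ₗ (Submodule.Quotient.restrictScalarsEquiv K (redIdeal (cplx C₀) p)).symm.toLinearMap
  refine ⟨r • φ, fun v => ?_⟩
  have h1 : φ (Ideal.Quotient.mk _ (∏ i, X (v i))) = ph C₀ p z (mon v) := by
    change ph4 C₀ p z (mon v) = _
    unfold ph4
    rw [LinearMap.comp_apply]
    have hhom : (mon v : MvPolynomial V K).IsHomogeneous 4 := by
      unfold mon
      have := IsHomogeneous.prod univ (fun j => (X (v j) : MvPolynomial V K)) (fun _ => 1)
        (fun j _ => isHomogeneous_X K (v j))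
      simpa using this
    rw [homogeneousComponent_of_mem hhom, if_pos rfl]
  rw [LinearMap.smul_apply, h1, hr v, smul_eq_mul]
  unfold mu TM
  ring

/-- positions in general position exist over an infinite field -/
lemma exists_pos (C₀ : Combi V I) (K : Type u) [Field K] [Infinite K] :
    ∃ p : V → Fin 4 → K, ∀ i, (PM C₀ p i).det ≠ 0 := by
  let t : V ↪ K := (Fintype.equivFin V).toEmbedding.trans
    (Fin.valEmbedding.trans (Infinite.natEmbedding K))
  refine ⟨fun v j => t v ^ (j : ℕ), fun i => ?_⟩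
  have : PM C₀ (fun v (j : Fin 4) => t v ^ (j : ℕ)) i =
      Matrix.vandermonde (fun a => t (C₀.fac i a)) := by
    ext a j
    rfl
  rw [this, Matrix.det_vandermonde_ne_zero_iff]
  exact t.injective.comp (C₀.h_inj i)

/-- a non-zero cycle exists over an infinite field -/
theorem exists_cycle (C₀ : Combi V I) (K : Type u) [Field K] [Infinite K] :
    ∃ μ : (Fin 4 → V) → K, IsCycle 4 (cplx C₀) μ ∧ μ ≠ 0 := by
  obtain ⟨p, hp⟩ := exists_pos C₀ K
  obtain ⟨z, hz⟩ := exists_good hp
  refine ⟨mu C₀ p z, mu_cycle hz, fun h => ?_⟩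
  have h1 := mu_fac hz C₀.root
  rw [h] at h1
  exact sgn_ne _ h1.symm

/-- **Main theorem.** -/
theorem main [Infinite K] (h2 : (2 : K) ≠ 0) (hp : IsLSOP (cplx C₀) p)
    {μ : (Fin 4 → V) → K} (hμ : IsCycle 4 (cplx C₀) μ) (hμ0 : μ ≠ 0) :
    (∃ φ : Red (cplx C₀) p →ₗ[K] K, IsDegreeMap μ p φ) ∧
      ∀ φ : Red (cplx C₀) p →ₗ[K] K, IsDegreeMap μ p φ → ¬ TotallyAnisotropic φ := by
  obtain ⟨z, hz⟩ := exists_good (det_ne_of_lsop hp)
  refine ⟨exists_degreeMap hz hμ, fun φ hφ => not_anisotropic hz h2 φ ?_⟩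
  obtain ⟨v, hv⟩ : ∃ v, μ v ≠ 0 := by
    by_contra hcon
    push Not at hcon
    exact hμ0 (funext hcon)
  refine ⟨v, fun h => hv ?_⟩
  have h3 := hφ v
  have h4 : φ (Ideal.Quotient.mk _ (∏ i, X (v i))) = 0 := h
  rw [h4, mul_zero] at h3
  exact h3.symm

end

end Pool.Agent.H874.AN
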