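import Pool.Agent.H874.AN.Cplx

/-!
# No linear system of parameters is totally anisotropic
-/

set_option autoImplicit false
set_option linter.unusedSectionVars false
set_option linter.unusedSimpArgs false

namespace Pool.Agent.H874.AN

open Finset Matrix MvPolynomial

universe u

section

variable {V I : Type} [Fintype V] [DecidableEq V] [Fintype I] [DecidableEq I] {C₀ : Combi V I}
  {K : Type u} [Field K] {p : V → Fin 4 → K} {z : Fin 4 → K}

lemma th_eq (M : Fin 4 → K) : th p M = ∑ j, MvPolynomial.C (M j) * theta p j := by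
  unfold th theta
  simp_rw [Finset.mul_sum]
  rw [Finset.sum_comm]
  refine Finset.sum_congr rfl fun v _ => ?_
  simp only [dotProduct, map_sum, Finset.sum_mul, map_mul]
  refine Finset.sum_congr rfl fun j _ => ?_
  ring

lemma th_mem (Δ : Set (Finset V)) (M : Fin 4 → K) : th p M ∈ redIdeal Δ p := by
  rw [th_eq]
  refine Ideal.sum_mem _ fun j _ => Ideal.mul_mem_left _ _ ?_
  exact Ideal.mem_sup_right (Ideal.subset_span ⟨j, rfl⟩)

lemma mon_mem (Δ : Set (Finset V)) (t : Fin 4 → V) (ht : univ.image t ∉ Δ) :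
    (mon t : MvPolynomial V K) ∈ redIdeal Δ p := by
  have h1 : (∏ v ∈ univ.image t, X v : MvPolynomial V K) ∣ mon t := by
    unfold mon
    rw [Finset.prod_comp (fun v => (X v : MvPolynomial V K)) t]
    refine Finset.prod_dvd_prod_of_dvd _ _ fun v hv => dvd_pow_self _ ?_
    rw [mem_image] at hv
    obtain ⟨j, _, hj⟩ := hv
    rw [Finset.card_ne_zero]
    exact ⟨j, by simp [hj]⟩
  exact Ideal.mem_of_dvd _ h1 (Ideal.mem_sup_left (Ideal.subset_span ⟨_, ht, rfl⟩))

/-- the functional on polynomials of a functional on the quotient -/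
noncomputable def lft {Δ : Set (Finset V)} (φ : Red Δ p →ₗ[K] K) : MvPolynomial V K →ₗ[K] K :=
  φ ∘ₗ (Ideal.Quotient.mkₐ K (redIdeal Δ p)).toLinearMap

lemma lft_apply {Δ : Set (Finset V)} (φ : Red Δ p →ₗ[K] K) (f : MvPolynomial V K) :
    lft φ f = φ (Ideal.Quotient.mk _ f) := rfl

lemma lft_zero {Δ : Set (Finset V)} (φ : Red Δ p →ₗ[K] K) (f : MvPolynomial V K)
    (hf : f ∈ redIdeal Δ p) : lft φ f = 0 := by
  rw [lft_apply, Ideal.Quotient.eq_zero_iff_mem.mpr hf, map_zero]

lemma kills_lft (φ : Red (cplx C₀) p →ₗ[K] K) : Kills C₀ p (lft φ) := by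
  constructor
  · intro a b c M
    exact lft_zero φ _ (Ideal.mul_mem_left _ _ (th_mem _ M))
  · intro t ht
    apply lft_zero
    apply mon_mem
    rintro ⟨i, hi⟩
    apply ht
    refine ⟨i, fun j => ?_⟩
    have := hi (mem_image_of_mem t (mem_univ j))
    rw [mem_image] at this
    obtain ⟨b, _, hb⟩ := this
    exact ⟨b, hb⟩

/-- the span of the edge monomials -/
noncomputable def U2 (V : Type) (K : Type u) [Field K] : Submodule K (MvPolynomial V K) :=
  Submodule.span K {f | ∃ v w : V, v ≠ w ∧ f = X v * X w}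

/-- evaluation at the points of the fibre -/
noncomputable def evl (C₀ : Combi V I) (p : V → Fin 4 → K) (z : Fin 4 → K) :
    MvPolynomial V K →ₗ[K] (I → K) where
  toFun f i := eval (XX C₀ p z i) f
  map_add' f g := by ext i; simp
  map_smul' r f := by ext i; simp

lemma exists_U2 (y : I → K) (hy : y ∈ W2 C₀ p z) : ∃ u ∈ U2 V K, evl C₀ p z u = y := by
  have hle : W2 C₀ p z ≤ (U2 V K).map (evl C₀ p z) := by
    unfold W2
    rw [Submodule.span_le]
    rintro _ ⟨v, w, hvw, rfl⟩
    refine ⟨X v * X w, Submodule.subset_span ⟨v, w, hvw, rfl⟩, ?_⟩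
    ext i
    change eval (XX C₀ p z i) (X v * X w) = _
    simp
  obtain ⟨u, hu, h⟩ := hle hy
  exact ⟨u, hu, h⟩

lemma U2_hom (u : MvPolynomial V K) (hu : u ∈ U2 V K) : u ∈ homogeneousSubmodule V K 2 := by
  have hle : U2 V K ≤ homogeneousSubmodule V K 2 := by
    unfold U2
    rw [Submodule.span_le]
    rintro _ ⟨v, w, _, rfl⟩
    rw [SetLike.mem_coe, mem_homogeneousSubmodule]
    exact (isHomogeneous_X K v).mul (isHomogeneous_X K w)
  exact hle hu

lemma ph_mul (u w : MvPolynomial V K) :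
    ph C₀ p z (u * w) = DD C₀ p z (evl C₀ p z u) (evl C₀ p z w) := by
  rw [ph_apply, DD_apply]
  refine Finset.sum_congr rfl fun i _ => ?_
  change _ = _ * (eval (XX C₀ p z i) u * eval (XX C₀ p z i) w)
  rw [map_mul]

lemma mul_U2 {ψ : MvPolynomial V K →ₗ[K] K} {r : K}
    (h : ∀ t : Fin 4 → V, ψ (mon t) = r * ph C₀ p z (mon t)) (u w : MvPolynomial V K)
    (hu : u ∈ U2 V K) (hw : w ∈ U2 V K) : ψ (u * w) = r * ph C₀ p z (u * w) := by
  unfold U2 at hu hw
  induction hu using Submodule.span_induction with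
  | mem u hu =>
    obtain ⟨a, b, _, rfl⟩ := hu
    induction hw using Submodule.span_induction with
    | mem w hw =>
      obtain ⟨c, d, _, rfl⟩ := hw
      have := h ![a, b, c, d]
      have e : (mon ![a, b, c, d] : MvPolynomial V K) = X a * X b * (X c * X d) := by
        unfold mon
        rw [Fin.prod_univ_four]
        simp only [Matrix.cons_val_zero, Matrix.cons_val_one, Matrix.cons_val]
        ring
      rw [e] at this
      exact this
    | zero => simp
    | add x y _ _ hx hy => rw [mul_add, map_add, map_add, hx, hy, mul_add]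
    | smul c x _ hx => rw [mul_smul_comm, map_smul, map_smul, hx, smul_eq_mul, smul_eq_mul]; ring
  | zero => simp
  | add x y _ _ hx hy => rw [add_mul, map_add, map_add, hx, hy, mul_add]
  | smul c x _ hx => rw [smul_mul_assoc, map_smul, map_smul, hx, smul_eq_mul, smul_eq_mul]; ring

/-- **Main theorem for the degree map.** -/
theorem not_anisotropic (hg : Good C₀ p z) (h2 : (2 : K) ≠ 0) (φ : Red (cplx C₀) p →ₗ[K] K)
    (hφ : ∃ t : Fin 4 → V, lft φ (mon t) ≠ 0) : ¬ TotallyAnisotropic φ := by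
  intro hA
  obtain ⟨r, hr⟩ := (kills_lft φ).eq_smul hg
  obtain ⟨t, ht⟩ := hφ
  have hr0 : r ≠ 0 := by
    rintro rfl
    rw [hr, zero_mul] at ht
    exact ht rfl
  obtain ⟨y, hy, hyy, w, hw, hyw⟩ := exists_isotropic hg h2
  obtain ⟨u, hu, rfl⟩ := exists_U2 y hy
  obtain ⟨x, hx, rfl⟩ := exists_U2 w hw
  have h1 : lft φ (u * u) = 0 := by
    rw [mul_U2 hr u u hu hu, ph_mul, hyy, mul_zero]
  have h3 : lft φ (u * x) ≠ 0 := by
    rw [mul_U2 hr u x hu hx, ph_mul]
    exact mul_ne_zero hr0 hyw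
  have hgr : ∀ f ∈ U2 V K, Ideal.Quotient.mk (redIdeal (cplx C₀) p) f ∈ gr (cplx C₀) p 2 :=
    fun f hf => ⟨f, U2_hom f hf, rfl⟩
  have h4 := hA 2 (by norm_num) (Ideal.Quotient.mk _ u) (hgr u hu) (by
    rintro ⟨_, h5⟩
    apply h3
    have := h5 (Ideal.Quotient.mk _ x) (hgr x hx)
    rw [← map_mul] at this
    exact this)
  apply h4
  refine ⟨?_, ?_⟩
  · refine ⟨u ^ 2, ?_, by simp⟩
    rw [SetLike.mem_coe, mem_homogeneousSubmodule]
    have h6 := U2_hom u hu
    rw [mem_homogeneousSubmodule] at h6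
    simpa using h6.pow 2
  · rintro b ⟨f, hf, rfl⟩
    have h7 : ∃ c, f = MvPolynomial.C c := by
      rw [SetLike.mem_coe, mem_homogeneousSubmodule] at hf
      have h8 : f.totalDegree = 0 := by
        by_cases hf0 : f = 0
        · rw [hf0]; simp
        · have := hf.totalDegree hf0
          simpa using this
      exact ⟨_, (totalDegree_eq_zero_iff_eq_C).mp h8⟩
    obtain ⟨c, rfl⟩ := h7
    change φ (Ideal.Quotient.mk _ u ^ 2 * Ideal.Quotient.mk _ (MvPolynomial.C c)) = 0
    rw [← map_pow, ← map_mul, ← lft_apply]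
    have : u ^ 2 * MvPolynomial.C c = c • (u * u) := by
      rw [MvPolynomial.smul_eq_C_mul]; ring
    rw [this, map_smul, h1, smul_zero]

end

end Pool.Agent.H874.AN
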