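import Pool.Agent.H874.AN.Data

/-!
# Localisation at the fibre over a generic point

`p v ∈ K^4` are the coordinates of the vertices and `z ∈ K^4` is a generic point. For a facet `i`
let `chi i` be the coordinates of `z` in the basis `p (fac i a)`, and `X i v` the same as a function
on the vertices. The functional `f ↦ ∑ i, cc i * f (X i)` on polynomials vanishes in the degrees
two and three.
-/

set_option autoImplicit false
set_option linter.unusedSectionVars false
set_option linter.unusedSimpArgs false

namespace Pool.Agent.H874.AN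

open Finset Matrix

universe u

section

variable {V I : Type} [Fintype V] [DecidableEq V] [Fintype I] [DecidableEq I] (C : Combi V I)
  {K : Type u} [Field K] (p : V → Fin 4 → K) (z : Fin 4 → K)

/-- the matrix of the coordinates of the vertices of a facet -/
def PM (i : I) : Matrix (Fin 4) (Fin 4) K := Matrix.of fun a j => p (C.fac i a) j

/-- the coordinates of `z` with respect to the vertices of the facet `i` -/
noncomputable def chi (i : I) : Fin 4 → K := z ᵥ* (PM C p i)⁻¹

/-- the point of the fibre on the facet `i` -/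
noncomputable def XX (i : I) (v : V) : K := ∑ a, if C.fac i a = v then chi C p z i a else 0

/-- a sign -/
def sgn (b : Bool) : K := if b then -1 else 1

omit [Fintype V] [DecidableEq V] [Fintype I] [DecidableEq I] in
lemma sgn_ne (b : Bool) : (sgn b : K) ≠ 0 := by
  cases b <;> simp [sgn]

omit [Fintype V] [DecidableEq V] [Fintype I] [DecidableEq I] in
lemma sgn_xor (a b : Bool) : (sgn (xor a b) : K) = sgn a * sgn b := by
  cases a <;> cases b <;> simp [sgn]

omit [Fintype V] [DecidableEq V] [Fintype I] [DecidableEq I] in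
lemma sgn_mul_self (a : Bool) : (sgn a : K) * sgn a = 1 := by
  cases a <;> simp [sgn]

/-- the weight of a facet -/
noncomputable def cc (i : I) : K := sgn (C.sg i) * ((PM C p i).det * ∏ a, chi C p z i a)⁻¹

/-- `p` and `z` are in general position -/
structure Good : Prop where
  hdet : ∀ i, (PM C p i).det ≠ 0
  hchi : ∀ i a, chi C p z i a ≠ 0

variable {C p z}

lemma cc_ne (hg : Good C p z) (i : I) : cc C p z i ≠ 0 := by
  unfold cc
  refine mul_ne_zero (sgn_ne _) (inv_ne_zero (mul_ne_zero (hg.hdet i) ?_))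
  exact Finset.prod_ne_zero_iff.mpr fun a _ => hg.hchi i a

lemma XX_fac (i : I) (a : Fin 4) : XX C p z i (C.fac i a) = chi C p z i a := by
  unfold XX
  rw [Finset.sum_eq_single a]
  · simp
  · intro b _ hb
    rw [if_neg]
    intro h
    exact hb (C.h_inj i h)
  · simp

lemma XX_out (i : I) (v : V) (h : ∀ a, C.fac i a ≠ v) : XX C p z i v = 0 := by
  unfold XX
  exact Finset.sum_eq_zero fun a _ => if_neg (h a)

lemma sum_XX (i : I) (f : V → K) :
    ∑ v, f v * XX C p z i v = ∑ a, f (C.fac i a) * chi C p z i a := by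
  unfold XX
  simp_rw [Finset.mul_sum]
  rw [Finset.sum_comm]
  refine Finset.sum_congr rfl fun a _ => ?_
  rw [Finset.sum_eq_single (C.fac i a)]
  · simp
  · intro b _ hb
    rw [if_neg (fun h => hb h.symm), mul_zero]
  · simp

lemma chi_mul (hg : Good C p z) (i : I) : chi C p z i ᵥ* PM C p i = z := by
  unfold chi
  rw [Matrix.vecMul_vecMul, Matrix.nonsing_inv_mul _ (Ne.isUnit (hg.hdet i)), Matrix.vecMul_one]

lemma sum_chi (hg : Good C p z) (i : I) (j : Fin 4) :
    ∑ a, chi C p z i a * p (C.fac i a) j = z j := by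
  have := congrFun (chi_mul hg i) j
  simpa [Matrix.vecMul, dotProduct, PM] using this

lemma det_updateRow (hg : Good C p z) (i : I) (a : Fin 4) :
    ((PM C p i).updateRow a z).det = chi C p z i a * (PM C p i).det := by
  have h : z = ∑ k, chi C p z i k • (PM C p i) k := by
    conv_lhs => rw [← chi_mul hg i]
    ext j
    simp [Matrix.vecMul, dotProduct, Finset.sum_apply]
  conv_lhs => rw [h]
  rw [Matrix.det_updateRow_sum, smul_eq_mul]

/-- the determinant of a ridge and `z`, up to sign -/
noncomputable def Nr (C : Combi V I) (p : V → Fin 4 → K) (z : Fin 4 → K) (x : I × Fin 4) : K :=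
  ∑ j : Fin 4, (-1) ^ (j : ℕ) * z j * ((PM C p x.1).submatrix x.2.succAbove j.succAbove).det

lemma Nr_eq (hg : Good C p z) (x : I × Fin 4) :
    chi C p z x.1 x.2 * (PM C p x.1).det = (-1) ^ (x.2 : ℕ) * Nr C p z x := by
  rw [← det_updateRow hg, Matrix.det_succ_row _ x.2]
  unfold Nr
  rw [Finset.mul_sum]
  refine Finset.sum_congr rfl fun j _ => ?_
  rw [Matrix.updateRow_self, Matrix.submatrix_updateRow_succAbove, pow_add]
  ring

lemma Nr_nbr (x : I × Fin 4) : Nr C p z (C.nbr x) = Nr C p z x := by
  unfold Nr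
  refine Finset.sum_congr rfl fun j _ => ?_
  congr 2
  ext c k
  simp only [PM, Matrix.submatrix_apply, Matrix.of_apply]
  rw [C.h_fac x c]

/-- the contribution of a facet to the ridge monomial -/
noncomputable def hh (C : Combi V I) (p : V → Fin 4 → K) (z : Fin 4 → K) (x : I × Fin 4) : K :=
  cc C p z x.1 * ∏ c : Fin 3, chi C p z x.1 (x.2.succAbove c)

lemma hh_eq (hg : Good C p z) (x : I × Fin 4) :
    hh C p z x = sgn (C.sg x.1) * ((-1) ^ (x.2 : ℕ) * Nr C p z x)⁻¹ := by
  unfold hh cc
  rw [← Nr_eq hg, Fin.prod_univ_succAbove _ x.2]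
  have h1 := hg.hchi x.1 x.2
  have h2 := hg.hdet x.1
  have h3 : ∏ c : Fin 3, chi C p z x.1 (x.2.succAbove c) ≠ 0 :=
    Finset.prod_ne_zero_iff.mpr fun c _ => hg.hchi _ _
  field_simp

lemma hh_nbr (hg : Good C p z) (x : I × Fin 4) : hh C p z (C.nbr x) = - hh C p z x := by
  rw [hh_eq hg, hh_eq hg, Nr_nbr]
  have h := C.h_sg x
  generalize C.sg x.1 = s at *
  generalize C.sg (C.nbr x).1 = t at *
  generalize x.2 = a at *
  generalize (C.nbr x).2 = b at *
  generalize Nr C p z x = y
  have hpow : ∀ a : Fin 4, ((-1 : K)) ^ (a : ℕ) = sgn (a.val.testBit 0) := by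
    intro a
    fin_cases a
    · simp [sgn]
    · simp [sgn]
    · simp [sgn]
    · have h3 : (3 : ℕ).testBit 0 = true := rfl
      simp only [sgn, h3, if_true]
      ring
  rw [hpow, hpow]
  generalize a.val.testBit 0 = a' at *
  generalize b.val.testBit 0 = b' at *
  cases s <;> cases t <;> cases a' <;> cases b' <;> simp_all [sgn]

/-- the vertices of a ridge -/
def ridge (C : Combi V I) (x : I × Fin 4) : Finset V :=
  univ.image fun c : Fin 3 => C.fac x.1 (x.2.succAbove c)

lemma ridge_nbr (x : I × Fin 4) : ridge C (C.nbr x) = ridge C x := by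
  unfold ridge
  congr 1
  ext c
  rw [C.h_fac x c]

lemma prod_XX (i : I) (s : Fin 3 → V) (hs : Function.Injective s) :
    ∏ j, XX C p z i (s j) = ∑ a, if ridge C (i, a) = univ.image s then
      ∏ c : Fin 3, chi C p z i (a.succAbove c) else 0 := by
  by_cases h : ∀ j, ∃ b, C.fac i b = s j
  · choose t ht using h
    have htinj : Function.Injective t := by
      intro j k hjk
      apply hs
      rw [← ht j, ← ht k, hjk]
    have h1 : ∀ j, XX C p z i (s j) = chi C p z i (t j) := fun j => by rw [← ht j, XX_fac]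
    simp_rw [h1]
    have hcard : ((univ.image t)ᶜ : Finset (Fin 4)).card = 1 := by
      rw [Finset.card_compl, Finset.card_image_of_injective _ htinj]
      simp
    obtain ⟨a0, ha0⟩ := Finset.card_eq_one.mp hcard
    have hmem : ∀ a, a ∉ univ.image t ↔ a = a0 := by
      intro a
      rw [← Finset.mem_compl, ha0, Finset.mem_singleton]
    have himg : ∀ a : Fin 4, (univ.image fun c : Fin 3 => a.succAbove c) = univ.erase a := by
      intro a
      ext b
      simp only [mem_image, mem_univ, true_and, mem_erase, and_true]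
      exact Fin.exists_succAbove_eq_iff
    have hridge : ∀ a, ridge C (i, a) = univ.image s ↔ a = a0 := by
      intro a
      rw [← hmem]
      have e1 : ridge C (i, a) = (univ.erase a).image (C.fac i) := by
        rw [← himg, Finset.image_image]; rfl
      have e2 : univ.image s = (univ.image t).image (C.fac i) := by
        rw [Finset.image_image]
        congr 1
        ext j
        exact (ht j).symm
      rw [e1, e2]
      constructor
      · intro h
        have := Finset.image_injective (C.h_inj i) h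
        rw [← this]
        simp
      · intro h
        congr 1
        symm
        apply Finset.eq_of_subset_of_card_le
        · intro b hb
          rw [mem_erase]
          exact ⟨fun hba => h (hba ▸ hb), mem_univ _⟩
        · rw [Finset.card_image_of_injective _ htinj, Finset.card_erase_of_mem (mem_univ _)]
          simp
    simp_rw [hridge]
    rw [Finset.sum_ite_eq' univ a0]
    simp only [mem_univ, if_true]
    have e3 : ∏ j, chi C p z i (t j) = ∏ b ∈ univ.image t, chi C p z i b :=
      (Finset.prod_image (fun a _ b _ h => htinj h)).symm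
    have e4 : ∏ c : Fin 3, chi C p z i (a0.succAbove c) = ∏ b ∈ univ.erase a0, chi C p z i b := by
      rw [← himg, Finset.prod_image]
      intro a _ b _ h
      exact Fin.succAbove_right_injective h
    rw [e3, e4]
    congr 1
    ext b
    rw [mem_erase, and_iff_left (mem_univ b)]
    have h5 := hmem b
    constructor
    · intro h6 h7
      exact (h5.mpr h7) h6
    · intro h6
      by_contra h7
      exact h6 (h5.mp h7)
  · push Not at h
    obtain ⟨j, hj⟩ := h
    rw [Finset.prod_eq_zero (mem_univ j) (XX_out i _ hj)]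
    symm
    refine Finset.sum_eq_zero fun a _ => if_neg ?_
    intro hr
    have : s j ∈ ridge C (i, a) := by rw [hr]; exact mem_image_of_mem _ (mem_univ _)
    unfold ridge at this
    rw [mem_image] at this
    obtain ⟨c, _, hc⟩ := this
    exact hj _ hc

lemma sum_ridge (hg : Good C p z) (S : Finset V) :
    ∑ x : I × Fin 4, (if ridge C x = S then hh C p z x else 0) = 0 := by
  apply Finset.sum_involution (fun x _ => C.nbr x)
  · intro x _
    rw [ridge_nbr, hh_nbr hg]
    split_ifs <;> ring
  · intro x _ _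
    exact C.h_nbr_ne x
  · intro x _
    exact mem_univ _
  · intro x _
    exact C.h_nbr x

/-- the functional on cubic monomials -/
noncomputable def T3 (C : Combi V I) (p : V → Fin 4 → K) (z : Fin 4 → K) (a b c : V) : K :=
  ∑ i, cc C p z i * (XX C p z i a * XX C p z i b * XX C p z i c)

/-- the functional on quadratic monomials -/
noncomputable def T2 (C : Combi V I) (p : V → Fin 4 → K) (z : Fin 4 → K) (a b : V) : K :=
  ∑ i, cc C p z i * (XX C p z i a * XX C p z i b)

lemma T3_inj (hg : Good C p z) (a b c : V) (hab : a ≠ b) (hac : a ≠ c) (hbc : b ≠ c) :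
    T3 C p z a b c = 0 := by
  have hs : Function.Injective ![a, b, c] := by
    intro i j h
    fin_cases i <;> fin_cases j <;> simp_all
  have h1 : T3 C p z a b c = ∑ i, cc C p z i * ∏ j, XX C p z i (![a, b, c] j) := by
    unfold T3
    refine Finset.sum_congr rfl fun i _ => ?_
    rw [Fin.prod_univ_three]
    rfl
  rw [h1]
  simp_rw [prod_XX _ _ hs, Finset.mul_sum]
  have h2 := sum_ridge hg (univ.image ![a, b, c])
  rw [Fintype.sum_prod_type] at h2
  refine Eq.trans ?_ h2
  refine Finset.sum_congr rfl fun i _ => Finset.sum_congr rfl fun a' _ => ?_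
  unfold hh
  rw [mul_ite, mul_zero]

lemma sum_dot (hg : Good C p z) (M : Fin 4 → K) (i : I) :
    ∑ v, (p v ⬝ᵥ M) * XX C p z i v = z ⬝ᵥ M := by
  rw [sum_XX]
  have h : ∀ j, z j = ∑ a, chi C p z i a * p (C.fac i a) j := fun j => (sum_chi hg i j).symm
  simp only [dotProduct]
  simp_rw [h, Finset.sum_mul]
  rw [Finset.sum_comm]
  refine Finset.sum_congr rfl fun j _ => Finset.sum_congr rfl fun a _ => ?_
  ring

lemma exists_M (hg : Good C p z) (i : I) (w : Fin 4 → K) :
    ∃ M : Fin 4 → K, (∀ a, p (C.fac i a) ⬝ᵥ M = w a) ∧ z ⬝ᵥ M = ∑ a, chi C p z i a * w a := by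
  refine ⟨(PM C p i)⁻¹ *ᵥ w, ?_, ?_⟩
  · intro a
    have h := congrFun (show PM C p i *ᵥ ((PM C p i)⁻¹ *ᵥ w) = w by
      rw [Matrix.mulVec_mulVec, Matrix.mul_nonsing_inv _ (Ne.isUnit (hg.hdet i)),
        Matrix.one_mulVec]) a
    exact h
  · rw [Matrix.dotProduct_mulVec]
    rfl

lemma sum_T3 (hg : Good C p z) (M : Fin 4 → K) (a b : V) :
    ∑ v, (p v ⬝ᵥ M) * T3 C p z a b v = (z ⬝ᵥ M) * T2 C p z a b := by
  unfold T3 T2
  simp_rw [Finset.mul_sum]
  rw [Finset.sum_comm]
  refine Finset.sum_congr rfl fun i _ => ?_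
  rw [← sum_dot hg M i, Finset.sum_mul]
  refine Finset.sum_congr rfl fun v _ => ?_
  ring

lemma T3_comm12 (a b c : V) : T3 C p z a b c = T3 C p z b a c := by
  unfold T3
  refine Finset.sum_congr rfl fun i _ => by ring

lemma T3_comm23 (a b c : V) : T3 C p z a b c = T3 C p z a c b := by
  unfold T3
  refine Finset.sum_congr rfl fun i _ => by ring

lemma T3_aab (hg : Good C p z) (a b : V) (hab : a ≠ b) : T3 C p z a a b = 0 := by
  by_cases h : ∃ i a0 b0, C.fac i a0 = a ∧ C.fac i b0 = b
  · obtain ⟨i, a0, b0, rfl, rfl⟩ := h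
    have hab0 : a0 ≠ b0 := fun h => hab (by rw [h])
    obtain ⟨c0, hc1, hc2⟩ : ∃ c0 : Fin 4, c0 ≠ a0 ∧ c0 ≠ b0 := by
      have : ∀ a0 b0 : Fin 4, ∃ c0 : Fin 4, c0 ≠ a0 ∧ c0 ≠ b0 := by decide
      exact this a0 b0
    obtain ⟨M, hM, hz⟩ := exists_M hg i
      (Pi.single a0 1 + Pi.single c0 (-(chi C p z i a0 / chi C p z i c0)))
    have hz0 : z ⬝ᵥ M = 0 := by
      rw [hz]
      simp only [Pi.add_apply, mul_add, Finset.sum_add_distrib]
      simp only [Pi.single_apply, mul_ite, mul_one, mul_zero, Finset.sum_ite_eq', mem_univ,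
        if_true]
      have := hg.hchi i c0
      field_simp
      ring
    have h1 := sum_T3 hg M (C.fac i a0) (C.fac i b0)
    rw [hz0, zero_mul, Finset.sum_eq_single (C.fac i a0)] at h1
    · rw [hM] at h1
      have e : (Pi.single a0 1 + Pi.single c0 (-(chi C p z i a0 / chi C p z i c0)) :
          Fin 4 → K) a0 = 1 := by
        simp [Pi.single_apply, hc1.symm]
      rw [e, one_mul] at h1
      rw [← h1, T3_comm23]
    · intro v _ hv
      by_cases hvb : v = C.fac i b0
      · rw [hvb, hM]
        have e : (Pi.single a0 1 + Pi.single c0 (-(chi C p z i a0 / chi C p z i c0)) :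
            Fin 4 → K) b0 = 0 := by
          simp [Pi.single_apply, hc2.symm, hab0.symm]
        rw [e, zero_mul]
      · rw [T3_inj hg _ _ _ hab (Ne.symm hv) (Ne.symm hvb), mul_zero]
    · simp
  · unfold T3
    refine Finset.sum_eq_zero fun i _ => ?_
    by_cases ha : ∀ a', C.fac i a' ≠ a
    · rw [XX_out i a ha]; ring
    · push Not at ha
      obtain ⟨a', ha'⟩ := ha
      rw [XX_out i b (fun b' hb' => h ⟨i, a', b', ha', hb'⟩)]; ring

lemma T3_aaa (hg : Good C p z) (a : V) : T3 C p z a a a = 0 := by
  obtain ⟨i, a0, rfl⟩ := C.h_cover a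
  obtain ⟨c0, hc1⟩ : ∃ c0 : Fin 4, c0 ≠ a0 := by
    have : ∀ a0 : Fin 4, ∃ c0 : Fin 4, c0 ≠ a0 := by decide
    exact this a0
  obtain ⟨M, hM, hz⟩ := exists_M hg i
    (Pi.single a0 1 + Pi.single c0 (-(chi C p z i a0 / chi C p z i c0)))
  have hz0 : z ⬝ᵥ M = 0 := by
    rw [hz]
    simp only [Pi.add_apply, mul_add, Finset.sum_add_distrib]
    simp only [Pi.single_apply, mul_ite, mul_one, mul_zero, Finset.sum_ite_eq', mem_univ,
      if_true]
    have := hg.hchi i c0
    field_simp
    ring
  have h1 := sum_T3 hg M (C.fac i a0) (C.fac i a0)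
  rw [hz0, zero_mul, Finset.sum_eq_single (C.fac i a0)] at h1
  · rw [hM] at h1
    have e : (Pi.single a0 1 + Pi.single c0 (-(chi C p z i a0 / chi C p z i c0)) :
        Fin 4 → K) a0 = 1 := by
      simp [Pi.single_apply, hc1.symm]
    rw [e, one_mul] at h1
    exact h1
  · intro v _ hv
    rw [T3_aab hg _ _ (Ne.symm hv), mul_zero]
  · simp

/-- the functional vanishes in degree three -/
theorem T3_zero (hg : Good C p z) (a b c : V) : T3 C p z a b c = 0 := by
  by_cases hab : a = b
  · subst hab
    by_cases hac : a = c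
    · subst hac; exact T3_aaa hg a
    · exact T3_aab hg a c hac
  · by_cases hac : a = c
    · subst hac
      rw [T3_comm23]; exact T3_aab hg a b hab
    · by_cases hbc : b = c
      · subst hbc
        rw [T3_comm12, T3_comm23]; exact T3_aab hg b a (Ne.symm hab)
      · exact T3_inj hg a b c hab hac hbc

/-- the functional vanishes in degree two -/
theorem T2_zero (hg : Good C p z) (a b : V) : T2 C p z a b = 0 := by
  obtain ⟨M, hM, hz⟩ := exists_M hg C.root (Pi.single 0 (chi C p z C.root 0)⁻¹)
  have hz1 : z ⬝ᵥ M = 1 := by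
    rw [hz]
    simp only [Pi.single_apply, mul_ite, mul_zero, Finset.sum_ite_eq', mem_univ, if_true]
    exact mul_inv_cancel₀ (hg.hchi _ _)
  have h1 := sum_T3 hg M a b
  rw [hz1, one_mul] at h1
  rw [← h1]
  exact Finset.sum_eq_zero fun v _ => by rw [T3_zero hg, mul_zero]

end

end Pool.Agent.H874.AN
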