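import Pool.Agent.H874.AN.Data

/-!
# The 11-vertex triangulation of real projective 3-space as an instance of `Combi`
-/

set_option autoImplicit false
set_option maxRecDepth 100000

namespace Pool.Agent.H874.AN.RP3

theorem h_inj : ∀ i, Function.Injective (fac i) := by decide
theorem h_nbr : ∀ x, nbr (nbr x) = x := by decide
theorem h_nbr_ne : ∀ x, nbr x ≠ x := by decide
theorem h_fac : ∀ (x : Fin 40 × Fin 4) (c : Fin 3),
    fac x.1 (x.2.succAbove c) = fac (nbr x).1 ((nbr x).2.succAbove c) := by decide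
theorem h_sg : ∀ x : Fin 40 × Fin 4, xor (xor (sg x.1) (x.2.val.testBit 0))
    (xor (sg (nbr x).1) ((nbr x).2.val.testBit 0)) = true := by decide
theorem h_al : ∀ i a b, xor (eta i a) (eta i b) = al (fac i a) (fac i b) := by decide
theorem h_del : ∀ (x : Fin 40 × Fin 4) (c : Fin 3),
    eta (nbr x).1 ((nbr x).2.succAbove c) = xor (del x) (eta x.1 (x.2.succAbove c)) := by decide
theorem h_tree : ∀ i : Fin 40, i ≠ 0 → ∃ a, (nbr (i, a)).1.val < i.val ∧
    del (nbr (i, a)) = false := by decide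
theorem h_odd : ∃ x, del x = true := ⟨(18, 0), by decide⟩
theorem h_cover : ∀ v, ∃ i a, fac i a = v := by decide
theorem h_dist : ∀ i j, (∀ a, ∃ b, fac j b = fac i a) → i = j := by decide
theorem h_two : ∀ (x : Fin 40 × Fin 4) (l : Fin 40),
    (∀ c, ∃ b, fac l b = fac x.1 (x.2.succAbove c)) → l = x.1 ∨ l = (nbr x).1 := by decide
theorem h_pos : ∀ i s, pos i s < 80 := by decide
theorem h_ord : ∀ i s, ordi (pos i s) = i ∧ ords (pos i s) = s := by decide

/-- type A test: the vertex `a` of the lifted facet `(i, s)` is new -/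
def chkA (m : ℕ) (i : Fin 40) (s : Bool) (a : Fin 4) : Bool :=
  decide (∀ (j : Fin 40) (t : Bool), pos j t < m → ∀ b, fac j b = fac i a →
    xor t (eta j b) ≠ xor s (eta i a))

/-- type B test: all other lifted facets around an edge of the lifted facet are earlier -/
def chkB (m : ℕ) (i : Fin 40) (s : Bool) (c d : Fin 4) : Bool :=
  decide (c ≠ d ∧ ∀ j, j ≠ i → ∀ c', fac j c' = fac i c → ∀ d', fac j d' = fac i d →
        pos j (xor (xor s (eta i c)) (eta j c')) < m)

def chk (m : ℕ) : Bool :=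
  bif Nat.blt (cod m) 16 then chkA m (ordi m) (ords m) (Fin.ofNat 4 (cod m))
  else chkB m (ordi m) (ords m) (Fin.ofNat 4 (cod m / 4)) (Fin.ofNat 4 (cod m))

theorem h_chk : ∀ m : Fin 80, chk m.val = true := by decide

theorem h_step (m : ℕ) (hm : m < 80) : ∃ i s, (∀ j t, pos j t = m → j = i ∧ t = s) ∧
    ((∃ a, ∀ j t, pos j t < m → ∀ b, fac j b = fac i a → xor t (eta j b) ≠ xor s (eta i a)) ∨
     (∃ c d, c ≠ d ∧ ∀ j, j ≠ i → ∀ c' d', fac j c' = fac i c → fac j d' = fac i d →
        pos j (xor (xor s (eta i c)) (eta j c')) < m)) := by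
  refine ⟨ordi m, ords m, ?_, ?_⟩
  · intro j t h
    have := h_ord j t
    rw [h] at this
    exact ⟨this.1.symm, this.2.symm⟩
  · have h := h_chk ⟨m, hm⟩
    simp only [chk] at h
    cases hb : Nat.blt (cod m) 16
    · rw [hb, cond_false] at h
      have h2 := of_decide_eq_true h
      exact Or.inr ⟨_, _, h2.1, fun j hj c' d' hc hd => h2.2 j hj c' hc d' hd⟩
    · rw [hb, cond_true] at h
      have h2 := of_decide_eq_true h
      exact Or.inl ⟨_, h2⟩

end Pool.Agent.H874.AN.RP3

namespace Pool.Agent.H874.AN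

/-- The triangulation of `RP^3` with 11 vertices and 40 facets. -/
def rp3 : Combi (Fin 11) (Fin 40) where
  fac := RP3.fac
  sg := RP3.sg
  eta := RP3.eta
  al := RP3.al
  nbr := RP3.nbr
  del := RP3.del
  rk := fun i => i.val
  root := 0
  N := 80
  pos := RP3.pos
  h_inj := RP3.h_inj
  h_nbr := RP3.h_nbr
  h_nbr_ne := RP3.h_nbr_ne
  h_fac := RP3.h_fac
  h_sg := RP3.h_sg
  h_al := RP3.h_al
  h_del := RP3.h_del
  h_tree := RP3.h_tree
  h_odd := RP3.h_odd
  h_cover := RP3.h_cover
  h_dist := RP3.h_dist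
  h_two := RP3.h_two
  h_pos := RP3.h_pos
  h_step := RP3.h_step

end Pool.Agent.H874.AN
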