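import Mathlib

/-!
# A linear algebra lemma on totally isotropic subspaces
-/

set_option autoImplicit false

namespace Pool.Agent.H874.AN

open Module

/-- Let `D` be a bilinear form on a finite-dimensional space, `E` totally isotropic and
`dim W < dim E`. Then some `e ∈ E` is orthogonal to `W` but not in `W`. -/
theorem exists_orth_notMem {K M : Type*} [Field K] [AddCommGroup M] [Module K M]
    [FiniteDimensional K M] (D : M →ₗ[K] M →ₗ[K] K) (E W : Submodule K M)
    (hE : ∀ x ∈ E, ∀ y ∈ E, D x y = 0) (hlt : finrank K W < finrank K E) :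
    ∃ e ∈ E, (∀ w ∈ W, D e w = 0) ∧ e ∉ W := by
  classical
  by_contra hcon
  push Not at hcon
  -- the map `E → Dual W`
  let T : E →ₗ[K] Dual K W := (W.subtype.dualMap ∘ₗ D) ∘ₗ E.subtype
  have hT : ∀ (e : E) (w : W), T e w = D e w := fun e w => rfl
  let P : Submodule K M := (LinearMap.ker T).map E.subtype
  have hPW : P ≤ W := by
    rintro _ ⟨e, he, rfl⟩
    apply hcon e.1 e.2
    intro w hw
    rw [SetLike.mem_coe, LinearMap.mem_ker] at he
    have h2 := hT e ⟨w, hw⟩
    rw [he] at h2
    exact h2.symm
  let N : Submodule K W := P.comap W.subtype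
  have hN : finrank K N = finrank K P := (Submodule.comapSubtypeEquivOfLe hPW).finrank_eq
  have hP : finrank K P = finrank K (LinearMap.ker T) :=
    (Submodule.equivMapOfInjective E.subtype E.injective_subtype (LinearMap.ker T)).finrank_eq.symm
  have hrange : LinearMap.range T ≤ N.dualAnnihilator := by
    rintro _ ⟨e, rfl⟩
    rw [Submodule.mem_dualAnnihilator]
    rintro ⟨w, hw⟩ ⟨e', he', h⟩
    rw [hT]
    have hw' : (e' : M) = w := h
    have := hE _ e.2 _ e'.2
    rw [hw'] at this
    exact this
  have h1 := LinearMap.finrank_range_add_finrank_ker T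
  have h2 := Submodule.finrank_mono hrange
  have h3 := Subspace.finrank_add_finrank_dualAnnihilator_eq N
  have h4 : finrank K W < finrank K E := hlt
  omega

end Pool.Agent.H874.AN
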