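import Pool.Agent.H874.AN.Geo
import Pool.Agent.H874.AN.LinAlg

/-!
# The localised form has an isotropic vector of degree two which is not in the radical
-/

set_option autoImplicit false
set_option linter.unusedSectionVars false
set_option linter.unusedSimpArgs false

namespace Pool.Agent.H874.AN

open Finset Matrix

universe u

section

variable {V I : Type} [Fintype V] [DecidableEq V] [Fintype I] [DecidableEq I] (C : Combi V I)
  {K : Type u} [Field K] (p : V → Fin 4 → K) (z : Fin 4 → K)

/-- the form on the functions on the fibre -/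
noncomputable def DD : LinearMap.BilinForm K (I → K) :=
  LinearMap.mk₂ K (fun y y' => ∑ i, cc C p z i * (y i * y' i))
    (fun a b c => by simp [add_mul, mul_add, Finset.sum_add_distrib])
    (fun r a b => by simp [Finset.mul_sum, mul_left_comm, mul_assoc])
    (fun a b c => by simp [mul_add, Finset.sum_add_distrib])
    (fun r a b => by simp [Finset.mul_sum, mul_left_comm, mul_assoc])

/-- linear functions on the fibre -/
noncomputable def w1 : (V → K) →ₗ[K] (I → K) where
  toFun g i := ∑ a, chi C p z i a * g (C.fac i a)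
  map_add' f g := by ext i; simp [mul_add, Finset.sum_add_distrib]
  map_smul' r f := by ext i; simp [Finset.mul_sum, mul_left_comm]

/-- twisted linear functions on the fibre -/
noncomputable def ee : (V → K) →ₗ[K] (I → K) where
  toFun g i := ∑ a, sgn (C.eta i a) * chi C p z i a * g (C.fac i a)
  map_add' f g := by ext i; simp [mul_add, Finset.sum_add_distrib]
  map_smul' r f := by
    ext i
    simp only [Pi.smul_apply, smul_eq_mul, RingHom.id_apply, Finset.mul_sum]
    exact Finset.sum_congr rfl fun a _ => by ring

variable {C p z}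

lemma DD_apply (y y' : I → K) : DD C p z y y' = ∑ i, cc C p z i * (y i * y' i) := rfl

lemma w1_apply (g : V → K) (i : I) : w1 C p z g i = ∑ a, chi C p z i a * g (C.fac i a) := rfl

lemma ee_apply (g : V → K) (i : I) :
    ee C p z g i = ∑ a, sgn (C.eta i a) * chi C p z i a * g (C.fac i a) := rfl

lemma DD_refl : (DD C p z).IsRefl := by
  intro x y h
  rw [DD_apply] at h ⊢
  rw [← h]
  exact Finset.sum_congr rfl fun i _ => by ring

lemma DD_nondeg (hg : Good C p z) : (DD C p z).Nondegenerate := by
  have key : ∀ x : I → K, (∀ y, DD C p z x y = 0) → x = 0 := by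
    intro x h
    ext i
    have := h (Pi.single i 1)
    rw [DD_apply, Finset.sum_eq_single i] at this
    · simp only [Pi.single_eq_same, mul_one] at this
      exact (mul_eq_zero.mp this).resolve_left (cc_ne hg i)
    · intro j _ hj
      simp [Pi.single_apply, hj]
    · simp
  refine ⟨fun x h => key x h, fun y h => key y fun x => ?_⟩
  exact DD_refl _ _ (h x)

/-- linear functions that vanish on the fibre -/
lemma w1_ker (hg : Good C p z) : LinearMap.ker (w1 C p z) ≠ ⊥ := by
  obtain ⟨M, hM, hz⟩ := exists_M hg C.root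
    (Pi.single 0 1 + Pi.single 1 (-(chi C p z C.root 0 / chi C p z C.root 1)))
  have hz0 : z ⬝ᵥ M = 0 := by
    rw [hz]
    simp only [Pi.add_apply, mul_add, Finset.sum_add_distrib]
    simp only [Pi.single_apply, mul_ite, mul_one, mul_zero, Finset.sum_ite_eq', mem_univ,
      if_true]
    have := hg.hchi C.root 1
    field_simp
    ring
  intro hbot
  have h0 : (fun v => p v ⬝ᵥ M) ∈ LinearMap.ker (w1 C p z) := by
    rw [LinearMap.mem_ker]
    ext i
    rw [w1_apply, Pi.zero_apply, ← hz0, ← sum_dot hg M i, sum_XX]
    exact Finset.sum_congr rfl fun a _ => by ring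
  rw [hbot, Submodule.mem_bot] at h0
  have h1 := congrFun h0 (C.fac C.root 0)
  simp only [Pi.zero_apply] at h1
  rw [hM] at h1
  simp at h1

/-- the functional of a facet attached to a twisted linear function -/
noncomputable def MM (C : Combi V I) (p : V → Fin 4 → K) (g : V → K) (i : I) : Fin 4 → K :=
  (PM C p i)⁻¹ *ᵥ fun a => sgn (C.eta i a) * g (C.fac i a)

lemma MM_fac (hg : Good C p z) (g : V → K) (i : I) (a : Fin 4) :
    p (C.fac i a) ⬝ᵥ MM C p g i = sgn (C.eta i a) * g (C.fac i a) := by
  have h := congrFun (show PM C p i *ᵥ MM C p g i = fun a => sgn (C.eta i a) * g (C.fac i a) by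
    unfold MM
    rw [Matrix.mulVec_mulVec, Matrix.mul_nonsing_inv _ (Ne.isUnit (hg.hdet i)),
      Matrix.one_mulVec]) a
  exact h

lemma MM_z (g : V → K) (i : I) : z ⬝ᵥ MM C p g i = ee C p z g i := by
  unfold MM
  rw [Matrix.dotProduct_mulVec, ee_apply]
  simp only [dotProduct]
  refine Finset.sum_congr rfl fun a _ => ?_
  unfold chi
  ring

lemma MM_nbr (hg : Good C p z) (g : V → K) (h0 : ee C p z g = 0) (x : I × Fin 4) :
    MM C p g (C.nbr x).1 = (sgn (C.del x) : K) • MM C p g x.1 := by
  have hdet : ((PM C p (C.nbr x).1).updateRow (C.nbr x).2 z).det ≠ 0 := by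
    rw [det_updateRow hg]
    exact mul_ne_zero (hg.hchi _ _) (hg.hdet _)
  have hinj : Function.Injective
      ((PM C p (C.nbr x).1).updateRow (C.nbr x).2 z).mulVec := by
    rw [Matrix.mulVec_injective_iff_isUnit, Matrix.isUnit_iff_isUnit_det]
    exact Ne.isUnit hdet
  apply hinj
  ext b
  by_cases hb : b = (C.nbr x).2
  · subst hb
    change ((PM C p (C.nbr x).1).updateRow (C.nbr x).2 z) (C.nbr x).2 ⬝ᵥ _ =
      ((PM C p (C.nbr x).1).updateRow (C.nbr x).2 z) (C.nbr x).2 ⬝ᵥ _
    rw [Matrix.updateRow_self, dotProduct_smul, MM_z, MM_z, h0]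
    simp
  · obtain ⟨c, rfl⟩ := Fin.exists_succAbove_eq hb
    change ((PM C p (C.nbr x).1).updateRow (C.nbr x).2 z) _ ⬝ᵥ _ =
      ((PM C p (C.nbr x).1).updateRow (C.nbr x).2 z) _ ⬝ᵥ _
    rw [Matrix.updateRow_ne hb, dotProduct_smul]
    change p (C.fac (C.nbr x).1 ((C.nbr x).2.succAbove c)) ⬝ᵥ _ =
      _ • (p (C.fac (C.nbr x).1 ((C.nbr x).2.succAbove c)) ⬝ᵥ _)
    rw [MM_fac hg, ← C.h_fac, MM_fac hg, C.h_del, sgn_xor, smul_eq_mul, mul_assoc]

/-- a non-zero twisted linear function does not vanish on the fibre -/
lemma ee_inj (hg : Good C p z) (h2 : (2 : K) ≠ 0) : Function.Injective (ee C p z) := by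
  rw [← LinearMap.ker_eq_bot, LinearMap.ker_eq_bot']
  intro g h0
  have hall : ∀ n : ℕ, ∀ i, C.rk i ≤ n → MM C p g i = MM C p g C.root := by
    intro n
    induction n using Nat.strong_induction_on with
    | _ n ih =>
      intro i hi
      by_cases hroot : i = C.root
      · rw [hroot]
      · obtain ⟨a, ha1, ha2⟩ := C.h_tree i hroot
        have h1 := MM_nbr hg g h0 (C.nbr (i, a))
        rw [C.h_nbr, ha2] at h1
        have h3 : MM C p g i = MM C p g (C.nbr (i, a)).1 := by
          rw [show (i, a).1 = i from rfl] at h1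
          rw [h1]
          simp [sgn]
        rw [h3]
        exact ih _ (lt_of_lt_of_le ha1 hi) _ le_rfl
  have hall' : ∀ i, MM C p g i = MM C p g C.root := fun i => hall _ i le_rfl
  obtain ⟨x, hx⟩ := C.h_odd
  have h1 := MM_nbr hg g h0 x
  rw [hall', hall' x.1, hx] at h1
  have h4 : MM C p g C.root = 0 := by
    have h5 : (2 : K) • MM C p g C.root = 0 := by
      rw [two_smul]
      nth_rewrite 1 [h1]
      simp [sgn]
    exact (smul_eq_zero.mp h5).resolve_left h2
  ext v
  obtain ⟨i, a, rfl⟩ := C.h_cover v
  have h6 := MM_fac hg g i a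
  rw [hall', h4, dotProduct_zero] at h6
  exact ((mul_eq_zero.mp h6.symm).resolve_left (sgn_ne _))

/-- the space of the twisted linear functions is totally isotropic -/
lemma ee_iso (hg : Good C p z) (g g' : V → K) : DD C p z (ee C p z g) (ee C p z g') = 0 := by
  have h1 : ∀ i, ee C p z g i * ee C p z g' i =
      ∑ v, ∑ w, g v * g' w * sgn (C.al v w) * (XX C p z i v * XX C p z i w) := by
    intro i
    have h2 : ∀ v, ∑ w, g v * g' w * sgn (C.al v w) * (XX C p z i v * XX C p z i w) =
        (∑ b, g v * g' (C.fac i b) * sgn (C.al v (C.fac i b)) * chi C p z i b) *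
          XX C p z i v := by
      intro v
      rw [← sum_XX i fun w => g v * g' w * sgn (C.al v w), Finset.sum_mul]
      exact Finset.sum_congr rfl fun w _ => by ring
    simp_rw [h2]
    rw [sum_XX i fun v => ∑ b, g v * g' (C.fac i b) * sgn (C.al v (C.fac i b)) *
      chi C p z i b, ee_apply, ee_apply, Finset.sum_mul_sum]
    refine Finset.sum_congr rfl fun a _ => ?_
    rw [Finset.sum_mul]
    refine Finset.sum_congr rfl fun b _ => ?_
    rw [← C.h_al, sgn_xor]
    ring
  rw [DD_apply]
  simp_rw [h1, Finset.mul_sum]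
  rw [Finset.sum_comm]
  refine Finset.sum_eq_zero fun v _ => ?_
  rw [Finset.sum_comm]
  refine Finset.sum_eq_zero fun w _ => ?_
  have h3 := T2_zero hg v w
  unfold T2 at h3
  calc ∑ i, cc C p z i * (g v * g' w * sgn (C.al v w) * (XX C p z i v * XX C p z i w))
      = (g v * g' w * sgn (C.al v w)) * ∑ i, cc C p z i * (XX C p z i v * XX C p z i w) := by
        rw [Finset.mul_sum]
        exact Finset.sum_congr rfl fun i _ => by ring
    _ = 0 := by rw [h3, mul_zero]

/-- a function on the vertices of the double cover, evaluated at a lifted facet -/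
noncomputable def lin (C : Combi V I) (p : V → Fin 4 → K) (z : Fin 4 → K) (G : V → Bool → K)
    (i : I) (s : Bool) : K :=
  ∑ a, chi C p z i a * G (C.fac i a) (xor s (C.eta i a))

lemma lin_eq (G : V → Bool → K) (j : I) (c' : Fin 4) (σ : Bool) :
    ∑ u, G u (xor σ (C.al (C.fac j c') u)) * XX C p z j u =
      lin C p z G j (xor σ (C.eta j c')) := by
  rw [sum_XX j fun u => G u (xor σ (C.al (C.fac j c') u))]
  unfold lin
  refine Finset.sum_congr rfl fun b _ => ?_
  rw [← C.h_al, mul_comm, Bool.xor_assoc]

lemma rel_G (hg : Good C p z) (G : V → Bool → K) (v w : V) (σ : Bool) :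
    ∑ j, cc C p z j * (XX C p z j v * XX C p z j w *
      ∑ u, G u (xor σ (C.al v u)) * XX C p z j u) = 0 := by
  simp_rw [Finset.mul_sum]
  rw [Finset.sum_comm]
  refine Finset.sum_eq_zero fun u _ => ?_
  have h := T3_zero hg v w u
  unfold T3 at h
  calc ∑ j, cc C p z j * (XX C p z j v * XX C p z j w *
        (G u (xor σ (C.al v u)) * XX C p z j u))
      = G u (xor σ (C.al v u)) *
        ∑ j, cc C p z j * (XX C p z j v * XX C p z j w * XX C p z j u) := by
        rw [Finset.mul_sum]
        exact Finset.sum_congr rfl fun i _ => by ring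
    _ = 0 := by rw [h, mul_zero]

/-- A function on the fibre which is orthogonal to all edge monomials is linear. -/
lemma exists_w1 (hg : Good C p z) (h2 : (2 : K) ≠ 0) (y : I → K)
    (hy : ∀ v w, v ≠ w → ∑ i, cc C p z i * (XX C p z i v * XX C p z i w * y i) = 0) :
    ∃ g, w1 C p z g = y := by
  have key : ∀ m, m ≤ C.N → ∃ G : V → Bool → K, ∀ j t, C.pos j t < m → y j = lin C p z G j t := by
    intro m
    induction m with
    | zero => exact fun _ => ⟨fun _ _ => 0, fun j t h => absurd h (Nat.not_lt_zero _)⟩
    | succ m ih =>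
      intro hm
      obtain ⟨G, hG⟩ := ih (by omega)
      obtain ⟨i, s, huniq, hstep⟩ := C.h_step m (by omega)
      rcases hstep with ⟨a, ha⟩ | ⟨c, d, hcd, hB⟩
      · -- a new vertex
        set δ : K := (y i - lin C p z G i s) / chi C p z i a with hδ
        refine ⟨fun v σ => G v σ + if v = C.fac i a ∧ σ = xor s (C.eta i a) then δ else 0, ?_⟩
        have hlin : ∀ j t, lin C p z (fun v σ => G v σ + if v = C.fac i a ∧
            σ = xor s (C.eta i a) then δ else 0) j t = lin C p z G j t +
            ∑ b, if C.fac j b = C.fac i a ∧ xor t (C.eta j b) = xor s (C.eta i a) then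
              chi C p z j b * δ else 0 := by
          intro j t
          unfold lin
          rw [← Finset.sum_add_distrib]
          refine Finset.sum_congr rfl fun b _ => ?_
          rw [mul_add, mul_ite, mul_zero]
        intro j t hjt
        rw [hlin]
        by_cases hlt : C.pos j t < m
        · rw [Finset.sum_eq_zero, add_zero]
          · exact hG j t hlt
          · intro b _
            rw [if_neg]
            rintro ⟨h3, h4⟩
            exact ha j t hlt b h3 h4
        · obtain ⟨rfl, rfl⟩ := huniq j t (by omega)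
          rw [Finset.sum_eq_single a]
          · rw [if_pos ⟨rfl, rfl⟩, hδ, mul_div_cancel₀ _ (hg.hchi _ _)]
            ring
          · intro b _ hb
            rw [if_neg]
            rintro ⟨h3, _⟩
            exact hb (C.h_inj _ h3)
          · simp
      · -- an edge all of whose other facets are earlier
        refine ⟨G, ?_⟩
        intro j t hjt
        by_cases hlt : C.pos j t < m
        · exact hG j t hlt
        · obtain ⟨rfl, rfl⟩ := huniq j t (by omega)
          have hvw : C.fac j c ≠ C.fac j d := fun h => hcd (C.h_inj j h)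
          have h3 := hy _ _ hvw
          have h4 := rel_G hg G (C.fac j c) (C.fac j d) (xor t (C.eta j c))
          have h5 : ∑ i, cc C p z i * (XX C p z i (C.fac j c) * XX C p z i (C.fac j d) *
              (y i - ∑ u, G u (xor (xor t (C.eta j c)) (C.al (C.fac j c) u)) *
                XX C p z i u)) = 0 := by
            have : ∀ i, cc C p z i * (XX C p z i (C.fac j c) * XX C p z i (C.fac j d) *
              (y i - ∑ u, G u (xor (xor t (C.eta j c)) (C.al (C.fac j c) u)) *
                XX C p z i u)) = cc C p z i * (XX C p z i (C.fac j c) * XX C p z i (C.fac j d) *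
              y i) - cc C p z i * (XX C p z i (C.fac j c) * XX C p z i (C.fac j d) *
              ∑ u, G u (xor (xor t (C.eta j c)) (C.al (C.fac j c) u)) *
                XX C p z i u) := fun i => by ring
            simp_rw [this]
            rw [Finset.sum_sub_distrib, h3, h4, sub_zero]
          rw [Finset.sum_eq_single j] at h5
          · rw [XX_fac, XX_fac, lin_eq, Bool.xor_assoc, Bool.xor_self, Bool.xor_false] at h5
            have h6 := (mul_eq_zero.mp h5).resolve_left (cc_ne hg j)
            have h7 := (mul_eq_zero.mp h6).resolve_left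
              (mul_ne_zero (hg.hchi _ _) (hg.hchi _ _))
            exact sub_eq_zero.mp h7
          · intro i _ hij
            by_cases hc : ∀ a', C.fac i a' ≠ C.fac j c
            · rw [XX_out i _ hc]; ring
            · by_cases hd : ∀ a', C.fac i a' ≠ C.fac j d
              · rw [XX_out i _ hd]; ring
              · push Not at hc hd
                obtain ⟨c', hc'⟩ := hc
                obtain ⟨d', hd'⟩ := hd
                have h8 := hG i _ (hB i hij c' d' hc' hd')
                rw [← hc', lin_eq, ← h8, sub_self, mul_zero, mul_zero]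
          · simp
  obtain ⟨G, hG⟩ := key C.N le_rfl
  refine ⟨fun v => (G v false + G v true) / 2, ?_⟩
  ext i
  have h3 := hG i false (C.h_pos _ _)
  have h4 := hG i true (C.h_pos _ _)
  have h5 : y i = (y i + y i) / 2 := by
    field_simp
    ring
  rw [h5]
  nth_rewrite 1 [h3]
  rw [h4, w1_apply]
  unfold lin
  rw [← Finset.sum_add_distrib, Finset.sum_div]
  refine Finset.sum_congr rfl fun a _ => ?_
  cases C.eta i a <;> simp <;> ring

/-- the functions on the fibre given by edge monomials -/
def W2 (C : Combi V I) (p : V → Fin 4 → K) (z : Fin 4 → K) : Submodule K (I → K) :=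
  Submodule.span K {y | ∃ v w : V, v ≠ w ∧ y = fun i => XX C p z i v * XX C p z i w}

/-- Main point: there is an isotropic function of degree two which is not in the radical. -/
theorem exists_isotropic (hg : Good C p z) (h2 : (2 : K) ≠ 0) :
    ∃ y ∈ W2 C p z, DD C p z y y = 0 ∧ ∃ w ∈ W2 C p z, DD C p z y w ≠ 0 := by
  classical
  have hlt : Module.finrank K (LinearMap.range (w1 C p z)) <
      Module.finrank K (LinearMap.range (ee C p z)) := by
    have e1 := LinearMap.finrank_range_add_finrank_ker (w1 C p z)
    have e2 := LinearMap.finrank_range_of_inj (ee_inj hg h2)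
    have e3 : 0 < Module.finrank K (LinearMap.ker (w1 C p z)) := by
      rw [Module.finrank_pos_iff, Submodule.nontrivial_iff_ne_bot]
      exact w1_ker hg
    omega
  obtain ⟨y, hy1, hy2, hy3⟩ := exists_orth_notMem (DD C p z) _ _
    (by
      rintro _ ⟨g, rfl⟩ _ ⟨g', rfl⟩
      exact ee_iso hg g g') hlt
  have hperp : (DD C p z).orthogonal (W2 C p z) ≤ LinearMap.range (w1 C p z) := by
    intro x hx
    rw [LinearMap.BilinForm.mem_orthogonal_iff] at hx
    obtain ⟨g, hg'⟩ := exists_w1 hg h2 x (fun v w hvw => by
      have := hx _ (Submodule.subset_span ⟨v, w, hvw, rfl⟩)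
      exact this)
    exact ⟨g, hg'⟩
  refine ⟨y, ?_, ?_, ?_⟩
  · rw [← LinearMap.BilinForm.orthogonal_orthogonal (DD_nondeg hg) DD_refl (W2 C p z),
      LinearMap.BilinForm.mem_orthogonal_iff]
    intro n hn
    exact DD_refl _ _ (hy2 n (hperp hn))
  · obtain ⟨g, rfl⟩ := hy1
    exact ee_iso hg g g
  · by_contra hcon
    push Not at hcon
    apply hy3
    apply hperp
    rw [LinearMap.BilinForm.mem_orthogonal_iff]
    intro n hn
    exact DD_refl _ _ (hcon n hn)

end

end Pool.Agent.H874.AN
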