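import Pool.Agent.H874.AN.Iso
import Pool.Agent.H874.AN.Defs

/-!
# Functionals on the face ring in degree four

A functional on the polynomials which kills the ideal `I_Δ + (Θ)` in degree four is determined by
its value at one facet, and is a multiple of the localised functional `ph`.
-/

set_option autoImplicit false
set_option linter.unusedSectionVars false
set_option linter.unusedSimpArgs false

namespace Pool.Agent.H874.AN

open Finset Matrix MvPolynomial

universe u

section

variable {V I : Type} [Fintype V] [DecidableEq V] [Fintype I] [DecidableEq I] (C₀ : Combi V I)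
  {K : Type u} [Field K] (p : V → Fin 4 → K) (z : Fin 4 → K)

/-- the localised functional -/
noncomputable def ph : MvPolynomial V K →ₗ[K] K where
  toFun f := ∑ i, cc C₀ p z i * eval (XX C₀ p z i) f
  map_add' f g := by simp [mul_add, Finset.sum_add_distrib]
  map_smul' r f := by simp [Finset.mul_sum, mul_left_comm]

/-- the monomial of a 4-tuple -/
noncomputable def mon (t : Fin 4 → V) : MvPolynomial V K := ∏ j, X (t j)

/-- the linear form attached to a functional `M` -/
noncomputable def th (p : V → Fin 4 → K) (M : Fin 4 → K) : MvPolynomial V K :=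
  ∑ v, MvPolynomial.C (p v ⬝ᵥ M) * X v

variable {C₀ p z}

lemma ph_apply (f : MvPolynomial V K) :
    ph C₀ p z f = ∑ i, cc C₀ p z i * eval (XX C₀ p z i) f := rfl

lemma eval_th (hg : Good C₀ p z) (M : Fin 4 → K) (i : I) :
    eval (XX C₀ p z i) (th p M) = z ⬝ᵥ M := by
  unfold th
  rw [map_sum, ← sum_dot hg M i]
  exact Finset.sum_congr rfl fun v _ => by simp

lemma ph_cubic (hg : Good C₀ p z) (a b c : V) :
    ph C₀ p z (X a * X b * X c) = 0 := by
  have h := T3_zero hg a b c
  unfold T3 at h
  rw [ph_apply, ← h]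
  exact Finset.sum_congr rfl fun v _ => by simp

lemma ph_th (hg : Good C₀ p z) (a b c : V) (M : Fin 4 → K) :
    ph C₀ p z (X a * X b * X c * th p M) = 0 := by
  have h := ph_cubic hg a b c
  rw [ph_apply] at h ⊢
  have : ∀ i, cc C₀ p z i * eval (XX C₀ p z i) (X a * X b * X c * th p M) =
      (cc C₀ p z i * eval (XX C₀ p z i) (X a * X b * X c)) * (z ⬝ᵥ M) := by
    intro i
    rw [map_mul, eval_th hg]
    ring
  simp_rw [this]
  rw [← Finset.sum_mul, h, zero_mul]

lemma ph_mon_out (t : Fin 4 → V) (ht : ¬ ∃ i, ∀ j, ∃ b, C₀.fac i b = t j) :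
    ph C₀ p z (mon t) = 0 := by
  rw [ph_apply]
  refine Finset.sum_eq_zero fun i _ => ?_
  push Not at ht
  obtain ⟨j, hj⟩ := ht i
  unfold mon
  rw [map_prod, Finset.prod_eq_zero (mem_univ j), mul_zero]
  rw [eval_X]
  exact XX_out i _ hj

lemma ph_mon_fac (i : I) (hg : Good C₀ p z) :
    ph C₀ p z (mon (C₀.fac i)) = sgn (C₀.sg i) * ((PM C₀ p i).det)⁻¹ := by
  rw [ph_apply, Finset.sum_eq_single i]
  · unfold mon
    rw [map_prod]
    simp only [eval_X, XX_fac]
    unfold cc
    have h1 := hg.hdet i
    have h2 : ∏ a, chi C₀ p z i a ≠ 0 := Finset.prod_ne_zero_iff.mpr fun a _ => hg.hchi i a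
    field_simp
  · intro j _ hj
    unfold mon
    rw [map_prod]
    have : ¬ ∀ a, ∃ b, C₀.fac j b = C₀.fac i a := fun h => hj (C₀.h_dist i j h).symm
    push Not at this
    obtain ⟨a, ha⟩ := this
    rw [Finset.prod_eq_zero (mem_univ a), mul_zero]
    rw [eval_X]
    exact XX_out j _ ha
  · simp

lemma ph_mon_fac_ne (i : I) (hg : Good C₀ p z) : ph C₀ p z (mon (C₀.fac i)) ≠ 0 := by
  rw [ph_mon_fac i hg]
  exact mul_ne_zero (sgn_ne _) (inv_ne_zero (hg.hdet i))

/-- the conditions on a functional which kills the ideal in degree four -/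
structure Kills (C₀ : Combi V I) (p : V → Fin 4 → K) (ψ : MvPolynomial V K →ₗ[K] K) : Prop where
  th : ∀ a b c M, ψ (X a * X b * X c * th p M) = 0
  out : ∀ t : Fin 4 → V, (¬ ∃ i, ∀ j, ∃ b, C₀.fac i b = t j) → ψ (mon t) = 0

lemma kills_ph (hg : Good C₀ p z) : Kills C₀ p (ph C₀ p z) :=
  ⟨fun a b c M => ph_th hg a b c M, fun t ht => ph_mon_out t ht⟩

/-- the relation obtained from a linear form -/
lemma Kills.rel {ψ : MvPolynomial V K →ₗ[K] K} (hψ : Kills C₀ p ψ) (s : Fin 3 → V)
    (M : Fin 4 → K) : ∑ v, (p v ⬝ᵥ M) * ψ (X v * ∏ c, X (s c)) = 0 := by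
  have h := hψ.th (s 0) (s 1) (s 2) M
  unfold AN.th at h
  rw [Finset.mul_sum, map_sum] at h
  rw [← h]
  refine Finset.sum_congr rfl fun v _ => ?_
  rw [Fin.prod_univ_three]
  have : (X (s 0) * X (s 1) * X (s 2) * (MvPolynomial.C (p v ⬝ᵥ M) * X v) : MvPolynomial V K) =
      (p v ⬝ᵥ M) • (X v * (X (s 0) * X (s 1) * X (s 2))) := by
    rw [MvPolynomial.smul_eq_C_mul]; ring
  rw [this, map_smul, smul_eq_mul]

lemma mon_update (t : Fin 4 → V) (j : Fin 4) (v : V) :
    (mon (Function.update t j v) : MvPolynomial V K) =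
      X v * ∏ c : Fin 3, X (t (j.succAbove c)) := by
  unfold mon
  rw [Fin.prod_univ_succAbove _ j]
  congr 1
  · simp
  · refine Finset.prod_congr rfl fun c _ => ?_
    rw [Function.update_of_ne (Fin.succAbove_ne j c)]

lemma mon_eq (t : Fin 4 → V) (j : Fin 4) :
    (mon t : MvPolynomial V K) = X (t j) * ∏ c : Fin 3, X (t (j.succAbove c)) := by
  unfold mon
  rw [Fin.prod_univ_succAbove _ j]

lemma mon_perm (t : Fin 4 → V) (π : Equiv.Perm (Fin 4)) :
    (mon (t ∘ π) : MvPolynomial V K) = mon t := by
  unfold mon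
  exact Equiv.prod_comp π fun j => (X (t j) : MvPolynomial V K)

/-- A functional that kills the ideal and the facet monomials is zero on all monomials of degree
four. -/
theorem Kills.mon_zero {ψ : MvPolynomial V K →ₗ[K] K} (hg : Good C₀ p z) (hψ : Kills C₀ p ψ)
    (hf : ∀ i, ψ (mon (C₀.fac i)) = 0) (t : Fin 4 → V) : ψ (mon t) = 0 := by
  have key : ∀ n : ℕ, ∀ t : Fin 4 → V, 4 - (univ.image t).card ≤ n → ψ (mon t) = 0 := by
    intro n
    induction n with
    | zero =>
      intro t ht
      have hc : (univ.image t).card = (univ : Finset (Fin 4)).card := by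
        have := Finset.card_image_le (s := (univ : Finset (Fin 4))) (f := t)
        simp only [Finset.card_univ, Fintype.card_fin] at this ⊢
        omega
      have hinj : Function.Injective t := by
        rw [Finset.card_image_iff] at hc
        exact Set.injOn_univ.mp (by simpa using hc)
      by_cases hin : ∃ i, ∀ j, ∃ b, C₀.fac i b = t j
      · obtain ⟨i, hi⟩ := hin
        choose τ hτ using hi
        have hτinj : Function.Injective τ := fun a b h => hinj (by rw [← hτ a, ← hτ b, h])
        have hτbij : Function.Bijective τ := Finite.injective_iff_bijective.mp hτinj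
        have : t = C₀.fac i ∘ (Equiv.ofBijective τ hτbij) := by
          ext j; exact (hτ j).symm
        rw [this, mon_perm]
        exact hf i
      · exact hψ.out t hin
    | succ n ih =>
      intro t ht
      by_cases hin : ∃ i, ∀ j, ∃ b, C₀.fac i b = t j
      · obtain ⟨i, hi⟩ := hin
        choose τ hτ using hi
        by_cases hinj : Function.Injective t
        · apply ih
          rw [Finset.card_image_of_injective _ hinj]
          simp
        · rw [Function.Injective] at hinj
          push Not at hinj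
          obtain ⟨j, j', hjj, hne⟩ := hinj
          obtain ⟨M, hM, _⟩ := exists_M hg i (Pi.single (τ j) 1)
          have h1 := hψ.rel (fun c => t (j.succAbove c)) M
          rw [Finset.sum_eq_single (t j)] at h1
          · rw [← mon_eq t j] at h1
            have h2 := hM (τ j)
            rw [hτ, Pi.single_eq_same] at h2
            rw [h2, one_mul] at h1
            exact h1
          · intro v _ hv
            by_cases hvi : ∃ b, C₀.fac i b = v
            · obtain ⟨b, rfl⟩ := hvi
              have hb : b ≠ τ j := by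
                rintro rfl
                exact hv (hτ j)
              rw [hM, Pi.single_eq_of_ne hb, zero_mul]
            · rw [← mon_update t j v]
              rw [ih, mul_zero]
              have himg : univ.image (Function.update t j v) = insert v (univ.image t) := by
                ext x
                simp only [mem_image, mem_univ, true_and, mem_insert]
                constructor
                · rintro ⟨l, rfl⟩
                  by_cases hl : l = j
                  · left; rw [hl]; simp
                  · right; exact ⟨l, by rw [Function.update_of_ne hl]⟩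
                · rintro (rfl | ⟨l, rfl⟩)
                  · exact ⟨j, by simp⟩
                  · by_cases hl : l = j
                    · refine ⟨j', ?_⟩
                      rw [Function.update_of_ne (Ne.symm hne), hl, hjj]
                    · exact ⟨l, by rw [Function.update_of_ne hl]⟩
              rw [himg, Finset.card_insert_of_notMem]
              · omega
              · intro hmem
                rw [mem_image] at hmem
                obtain ⟨l, _, rfl⟩ := hmem
                exact hvi ⟨τ l, hτ l⟩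
          · simp
      · exact hψ.out t hin
  exact key _ t le_rfl

/-- the relation across a ridge -/
lemma Kills.ridge_rel {ψ : MvPolynomial V K →ₗ[K] K} (hψ : Kills C₀ p ψ) (x : I × Fin 4)
    (M : Fin 4 → K) (hM1 : ∀ c, p (C₀.fac x.1 (x.2.succAbove c)) ⬝ᵥ M = 0) :
    (p (C₀.fac x.1 x.2) ⬝ᵥ M) * ψ (mon (C₀.fac x.1)) +
      (p (C₀.fac (C₀.nbr x).1 (C₀.nbr x).2) ⬝ᵥ M) * ψ (mon (C₀.fac (C₀.nbr x).1)) = 0 := by
  have h1 := hψ.rel (fun c => C₀.fac x.1 (x.2.succAbove c)) M
  have hne : C₀.fac x.1 x.2 ≠ C₀.fac (C₀.nbr x).1 (C₀.nbr x).2 := by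
    intro h
    have h2 : x.1 = (C₀.nbr x).1 := by
      apply C₀.h_dist
      intro a
      by_cases ha : a = x.2
      · exact ⟨(C₀.nbr x).2, by rw [ha, h]⟩
      · obtain ⟨c, rfl⟩ := Fin.exists_succAbove_eq ha
        exact ⟨_, (C₀.h_fac x c).symm⟩
    have h3 : x.2 = (C₀.nbr x).2 := by
      rw [← h2] at h
      exact C₀.h_inj _ h
    exact C₀.h_nbr_ne x (Prod.ext h2.symm h3.symm)
  have hsub : ∑ v, (p v ⬝ᵥ M) * ψ (X v * ∏ c, X (C₀.fac x.1 (x.2.succAbove c))) =
      ∑ v ∈ {C₀.fac x.1 x.2, C₀.fac (C₀.nbr x).1 (C₀.nbr x).2},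
        (p v ⬝ᵥ M) * ψ (X v * ∏ c, X (C₀.fac x.1 (x.2.succAbove c))) := by
    symm
    apply Finset.sum_subset (Finset.subset_univ _)
    intro v _ hv
    rw [mem_insert, mem_singleton, not_or] at hv
    by_cases hr : ∃ c, C₀.fac x.1 (x.2.succAbove c) = v
    · obtain ⟨c, rfl⟩ := hr
      rw [hM1, zero_mul]
    · rw [← mon_update (C₀.fac x.1) x.2 v]
      rw [hψ.out, mul_zero]
      rintro ⟨l, hl⟩
      have hl2 := C₀.h_two x l (fun c => by
        obtain ⟨b, hb⟩ := hl (x.2.succAbove c)
        rw [Function.update_of_ne (Fin.succAbove_ne _ _)] at hb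
        exact ⟨b, hb⟩)
      obtain ⟨b, hb⟩ := hl x.2
      rw [Function.update_self] at hb
      rcases hl2 with h | h
      · by_cases hbx : b = x.2
        · rw [h, hbx] at hb
          exact hv.1 hb.symm
        · obtain ⟨c, rfl⟩ := Fin.exists_succAbove_eq hbx
          rw [h] at hb
          exact hr ⟨c, hb⟩
      · by_cases hbx : b = (C₀.nbr x).2
        · rw [h, hbx] at hb
          exact hv.2 hb.symm
        · obtain ⟨c, rfl⟩ := Fin.exists_succAbove_eq hbx
          rw [h, ← C₀.h_fac] at hb
          exact hr ⟨c, hb⟩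
  rw [hsub, Finset.sum_pair hne] at h1
  rw [← mon_eq (C₀.fac x.1) x.2] at h1
  have h2 : (mon (C₀.fac (C₀.nbr x).1) : MvPolynomial V K) =
      X (C₀.fac (C₀.nbr x).1 (C₀.nbr x).2) * ∏ c, X (C₀.fac x.1 (x.2.succAbove c)) := by
    rw [mon_eq _ (C₀.nbr x).2]
    congr 1
    refine Finset.prod_congr rfl fun c _ => ?_
    rw [← C₀.h_fac x c]
  rw [← h2] at h1
  exact h1

/-- A functional that kills the ideal is a multiple of the localised one in degree four. -/
theorem Kills.eq_smul {ψ : MvPolynomial V K →ₗ[K] K} (hg : Good C₀ p z) (hψ : Kills C₀ p ψ) :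
    ∃ r : K, ∀ t : Fin 4 → V, ψ (mon t) = r * ph C₀ p z (mon t) := by
  set q : I → K := fun i => ψ (mon (C₀.fac i)) / ph C₀ p z (mon (C₀.fac i)) with hq
  have hstep : ∀ x : I × Fin 4, q x.1 = q (C₀.nbr x).1 := by
    intro x
    obtain ⟨M, hM, _⟩ := exists_M hg x.1 (Pi.single x.2 1)
    have h0 : ∀ c, p (C₀.fac x.1 (x.2.succAbove c)) ⬝ᵥ M = 0 := by
      intro c
      rw [hM, Pi.single_eq_of_ne (Fin.succAbove_ne _ _)]
    have h1 := hψ.ridge_rel x M h0
    have h2 := (kills_ph hg).ridge_rel x M h0
    rw [hM, Pi.single_eq_same, one_mul] at h1 h2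
    have h3 := ph_mon_fac_ne x.1 hg
    have h4 := ph_mon_fac_ne (C₀.nbr x).1 hg
    rw [hq]
    simp only
    rw [div_eq_div_iff h3 h4, eq_neg_of_add_eq_zero_left h1]
    have h5 := eq_neg_of_add_eq_zero_left h2
    rw [h5]
    ring
  have hall : ∀ n : ℕ, ∀ i, C₀.rk i ≤ n → q i = q C₀.root := by
    intro n
    induction n using Nat.strong_induction_on with
    | _ n ih =>
      intro i hi
      by_cases hroot : i = C₀.root
      · rw [hroot]
      · obtain ⟨a, ha1, _⟩ := C₀.h_tree i hroot
        rw [show i = (i, a).1 from rfl, hstep]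
        exact ih _ (lt_of_lt_of_le ha1 hi) _ le_rfl
  refine ⟨q C₀.root, fun t => ?_⟩
  have hk : Kills C₀ p (ψ - q C₀.root • ph C₀ p z) := by
    constructor
    · intro a b c M
      rw [LinearMap.sub_apply, LinearMap.smul_apply, hψ.th, (kills_ph hg).th]
      simp
    · intro t ht
      rw [LinearMap.sub_apply, LinearMap.smul_apply, hψ.out t ht, (kills_ph hg).out t ht]
      simp
  have h := hk.mon_zero hg (fun i => by
    rw [LinearMap.sub_apply, LinearMap.smul_apply, smul_eq_mul, ← hall _ i le_rfl, hq]
    simp only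
    rw [div_mul_cancel₀ _ (ph_mon_fac_ne i hg), sub_self]) t
  rw [LinearMap.sub_apply, LinearMap.smul_apply, smul_eq_mul] at h
  exact sub_eq_zero.mp h

end

end Pool.Agent.H874.AN
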